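import Mathlib

/-!
# Computable list recursion and bounded quantifiers
-/

set_option autoImplicit false

namespace Pool.Agent.Helper30.SatB

variable {α β γ σ : Type} [Primcodable α] [Primcodable β] [Primcodable γ] [Primcodable σ]

theorem comp_foldl {f : α → List β} {g : α → σ} {h : α → σ × β → σ} (hf : Computable f)
    (hg : Computable g) (hh : Computable₂ h) :
    Computable fun a => (f a).foldl (fun s b => h a (s, b)) (g a) := by
  have h1 : Computable fun a => (Nat.rec (g a)
      (fun i s => ((f a)[i]?.casesOn s fun b => h a (s, b) : σ)) (f a).length : σ) := by
    refine Computable.nat_rec (f := fun a => (f a).length) (g := g)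
      (h := fun a (q : ℕ × σ) => ((f a)[q.1]?.casesOn q.2 fun b => h a (q.2, b) : σ))
      (Computable.list_length.comp hf) hg ?_
    refine Computable.option_casesOn ?_ (Computable.snd.comp Computable.snd) ?_
    · exact Computable.list_getElem?.comp (hf.comp Computable.fst)
        (Computable.fst.comp Computable.snd)
    · exact hh.comp (Computable.fst.comp Computable.fst)
        (Computable.pair (Computable.snd.comp (Computable.snd.comp Computable.fst))
          Computable.snd)
  refine h1.of_eq fun a => ?_
  have h2 : ∀ i ≤ (f a).length, (Nat.rec (g a)
      (fun i s => ((f a)[i]?.casesOn s fun b => h a (s, b) : σ)) i : σ) =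
      ((f a).take i).foldl (fun s b => h a (s, b)) (g a) := by
    intro i
    induction i with
    | zero => simp
    | succ i ih =>
      intro hi
      have hi' : i < (f a).length := by omega
      simp only [ih hi'.le]
      rw [List.take_succ, List.foldl_append, List.getElem?_eq_getElem hi']
      simp
  rw [h2 _ le_rfl, List.take_length]

theorem comp_all {l : α → List β} {p : α → β → Bool} (hl : Computable l) (hp : Computable₂ p) :
    Computable fun a => (l a).all (p a) := by
  have h := comp_foldl (h := fun a (q : Bool × β) => q.1 && p a q.2) hl (Computable.const true)
    ((Primrec.and.to_comp.comp (Computable.fst.comp Computable.snd)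
      (hp.comp Computable.fst (Computable.snd.comp Computable.snd))).to₂)
  refine h.of_eq fun a => ?_
  have h2 : ∀ (l : List β) (b : Bool), l.foldl (fun s b => s && p a b) b = (b && l.all (p a)) := by
    intro l
    induction l with
    | nil => simp
    | cons x l ih => intro b; simp [ih, Bool.and_assoc]
  rw [h2]
  simp

theorem comp_any {l : α → List β} {p : α → β → Bool} (hl : Computable l) (hp : Computable₂ p) :
    Computable fun a => (l a).any (p a) := by
  have h := comp_foldl (h := fun a (q : Bool × β) => q.1 || p a q.2) hl (Computable.const false)
    ((Primrec.or.to_comp.comp (Computable.fst.comp Computable.snd)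
      (hp.comp Computable.fst (Computable.snd.comp Computable.snd))).to₂)
  refine h.of_eq fun a => ?_
  have h2 : ∀ (l : List β) (b : Bool), l.foldl (fun s b => s || p a b) b = (b || l.any (p a)) := by
    intro l
    induction l with
    | nil => simp
    | cons x l ih => intro b; simp [ih, Bool.or_assoc]
  rw [h2]
  simp

theorem comp_flatMap {l : α → List β} {g : α → β → List γ} (hl : Computable l)
    (hg : Computable₂ g) : Computable fun a => (l a).flatMap (g a) := by
  have h := comp_foldl (h := fun a (q : List γ × β) => q.1 ++ g a q.2) hl
    (Computable.const ([] : List γ))
    ((Computable.list_append.comp (Computable.fst.comp Computable.snd)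
      (hg.comp Computable.fst (Computable.snd.comp Computable.snd))).to₂)
  refine h.of_eq fun a => ?_
  have h2 : ∀ (l : List β) (b : List γ),
      l.foldl (fun s b => s ++ g a b) b = b ++ l.flatMap (g a) := by
    intro l
    induction l with
    | nil => simp
    | cons x l ih => intro b; simp [ih, List.append_assoc]
  rw [h2]
  simp

theorem comp_filterMap {l : α → List β} {g : α → β → Option γ} (hl : Computable l)
    (hg : Computable₂ g) : Computable fun a => (l a).filterMap (g a) := by
  have h : Computable fun a => (l a).flatMap fun b => (g a b).toList := by
    refine comp_flatMap hl ?_
    exact (Primrec.optionToList.to_comp).comp hg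
  refine h.of_eq fun a => ?_
  rw [List.filterMap_eq_flatMap_toList]

theorem comp_map {l : α → List β} {g : α → β → γ} (hl : Computable l)
    (hg : Computable₂ g) : Computable fun a => (l a).map (g a) := by
  have h : Computable fun a => (l a).flatMap fun b => [g a b] :=
    comp_flatMap hl (Computable.list_cons.comp hg (Computable.const _))
  refine h.of_eq fun a => ?_
  rw [← List.map_eq_flatMap]

theorem comp_filter {l : α → List β} {p : α → β → Bool} (hl : Computable l)
    (hp : Computable₂ p) : Computable fun a => (l a).filter (p a) := by
  have h : Computable fun a => (l a).filterMap fun b => bif p a b then some b else none := by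
    refine comp_filterMap hl ?_
    exact Computable.cond hp (Computable.option_some.comp Computable.snd) (Computable.const _)
  refine h.of_eq fun a => ?_
  induction l a with
  | nil => rfl
  | cons x l ih =>
    rw [List.filterMap_cons, List.filter_cons]
    cases hx : p a x <;> simp [ih]

theorem comp_range : Computable List.range := Primrec.list_range.to_comp

theorem comp_and {p q : α → Bool} (hp : Computable p) (hq : Computable q) :
    Computable fun a => p a && q a := Primrec.and.to_comp.comp hp hq

theorem comp_or {p q : α → Bool} (hp : Computable p) (hq : Computable q) :
    Computable fun a => p a || q a := Primrec.or.to_comp.comp hp hq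

theorem comp_not {p : α → Bool} (hp : Computable p) :
    Computable fun a => !p a := Primrec.not.to_comp.comp hp

/-- Computable conjunction over a fixed list of computable tests. -/
theorem comp_all_const {ι : Type} (l : List ι) {p : ι → α → Bool} (hp : ∀ i ∈ l, Computable (p i)) :
    Computable fun a => l.all fun i => p i a := by
  induction l with
  | nil => exact Computable.const true
  | cons i l ih =>
    simp only [List.all_cons]
    exact comp_and (hp i (by simp)) (ih fun j hj => hp j (by simp [hj]))

end Pool.Agent.Helper30.SatB
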