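import Mathlib

/-!
# The use principle

Every function computable from `X : ℕ → ℕ` is given by a total computable monotone functional on
finite initial segments of `X`, and conversely.
-/

set_option autoImplicit false

namespace Pool.Agent.Helper30.SatB

/-- The initial segment of length `k` of `X`, as a list. -/
def initList (X : ℕ → ℕ) (k : ℕ) : List ℕ := (List.range k).map X

/-- Total computable monotone functionals on finite strings. -/
structure IsFunctional (G : List ℕ → ℕ → Option ℕ) : Prop where
  comp : Computable₂ G
  mono : ∀ (σ τ : List ℕ) (n y : ℕ), σ <+: τ → G σ n = some y → G τ n = some y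

theorem initList_length (X : ℕ → ℕ) (k : ℕ) : (initList X k).length = k := by
  simp [initList]

theorem initList_getElem? (X : ℕ → ℕ) (k i : ℕ) (h : i < k) : (initList X k)[i]? = some (X i) := by
  simp [initList, h]

theorem initList_mono (X : ℕ → ℕ) {k l : ℕ} (h : k ≤ l) : initList X k <+: initList X l := by
  have : initList X k = (initList X l).take k := by
    simp only [initList, ← List.map_take, List.take_range, min_eq_left h]
  rw [this]
  exact List.take_prefix _ _

/-- The state of a bounded search: `none` if an undefined value was met, `some none` if no zero has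
been found so far, `some (some k)` if `k` is the first zero. -/
def searchState (t : ℕ → Option ℕ) : ℕ → Option (Option ℕ)
  | 0 => some none
  | i + 1 => (searchState t i).bind fun s =>
      s.casesOn ((t i).map fun v => v.casesOn (some i) fun _ => none) fun k => some (some k)

theorem searchState_spec (t : ℕ → Option ℕ) (i : ℕ) :
    (searchState t i = some none ↔ ∀ j < i, ∃ m, t j = some (m + 1)) ∧
    ∀ k, searchState t i = some (some k) ↔
      k < i ∧ t k = some 0 ∧ ∀ j < k, ∃ m, t j = some (m + 1) := by
  induction i with
  | zero => simp [searchState]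
  | succ i ih =>
    obtain ⟨ih1, ih2⟩ := ih
    rcases hs : searchState t i with _ | _ | k
    · constructor
      · simp only [searchState, hs, Option.bind_none, reduceCtorEq, false_iff]
        intro h
        have := ih1.2 fun j hj => h j (by omega)
        rw [hs] at this
        exact absurd this (by simp)
      · intro k
        simp only [searchState, hs, Option.bind_none, reduceCtorEq, false_iff]
        rintro ⟨hk, h0, hj⟩
        rcases Nat.lt_succ_iff_lt_or_eq.1 hk with h | h
        · have := (ih2 k).2 ⟨h, h0, hj⟩
          rw [hs] at this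
          exact absurd this (by simp)
        · subst h
          have := ih1.2 hj
          rw [hs] at this
          exact absurd this (by simp)
    · have h1 := ih1.1 hs
      rcases ht : t i with _ | _ | m
      · constructor
        · simp only [searchState, hs, ht, Option.bind_some, Option.map_none, reduceCtorEq,
            false_iff]
          intro h
          obtain ⟨m, hm⟩ := h i (by omega)
          rw [ht] at hm
          exact absurd hm (by simp)
        · intro k
          simp only [searchState, hs, ht, Option.bind_some, Option.map_none, reduceCtorEq,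
            false_iff]
          rintro ⟨hk, h0, hj⟩
          rcases Nat.lt_succ_iff_lt_or_eq.1 hk with h | h
          · obtain ⟨m, hm⟩ := h1 k h
            rw [h0] at hm
            exact absurd hm (by simp)
          · subst h
            rw [ht] at h0
            exact absurd h0 (by simp)
      · constructor
        · simp only [searchState, hs, ht, Option.bind_some, Option.map_some, Option.some.injEq,
            reduceCtorEq, false_iff]
          intro h
          obtain ⟨m, hm⟩ := h i (by omega)
          rw [ht] at hm
          exact absurd hm (by simp)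
        · intro k
          simp only [searchState, hs, ht, Option.bind_some, Option.map_some, Option.some.injEq]
          constructor
          · intro h
            obtain rfl : i = k := by simpa using h
            exact ⟨by omega, ht, h1⟩
          · rintro ⟨hk, h0, hj⟩
            rcases Nat.lt_succ_iff_lt_or_eq.1 hk with h | h
            · obtain ⟨m, hm⟩ := h1 k h
              rw [h0] at hm
              exact absurd hm (by simp)
            · simp [h]
      · constructor
        · simp only [searchState, hs, ht, Option.bind_some, Option.map_some, true_iff]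
          intro j hj
          rcases Nat.lt_succ_iff_lt_or_eq.1 hj with h | h
          · exact h1 j h
          · exact ⟨m, by rw [h, ht]⟩
        · intro k
          simp only [searchState, hs, ht, Option.bind_some, Option.map_some, Option.some.injEq,
            reduceCtorEq, false_iff]
          rintro ⟨hk, h0, hj⟩
          rcases Nat.lt_succ_iff_lt_or_eq.1 hk with h | h
          · obtain ⟨m', hm⟩ := h1 k h
            rw [h0] at hm
            exact absurd hm (by simp)
          · subst h
            rw [ht] at h0
            exact absurd h0 (by simp)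
    · obtain ⟨hk, h0, hj⟩ := (ih2 k).1 hs
      constructor
      · simp only [searchState, hs, Option.bind_some, Option.some.injEq, reduceCtorEq, false_iff]
        intro h
        obtain ⟨m, hm⟩ := h k (by omega)
        rw [h0] at hm
        exact absurd hm (by simp)
      · intro k'
        simp only [searchState, hs, Option.bind_some, Option.some.injEq]
        constructor
        · rintro rfl
          exact ⟨by omega, h0, hj⟩
        · rintro ⟨hk', h0', hj'⟩
          rcases lt_trichotomy k k' with h | h | h
          · obtain ⟨m, hm⟩ := hj' k h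
            rw [h0] at hm
            exact absurd hm (by simp)
          · exact h
          · obtain ⟨m, hm⟩ := hj k' h
            rw [h0'] at hm
            exact absurd hm (by simp)

theorem use_pair {X : ℕ → ℕ} {f h : ℕ →. ℕ}
    (ihf : ∃ G : List ℕ → ℕ → Option ℕ, IsFunctional G ∧
      ∀ n y, y ∈ f n ↔ ∃ k, G (initList X k) n = some y)
    (ihh : ∃ G : List ℕ → ℕ → Option ℕ, IsFunctional G ∧
      ∀ n y, y ∈ h n ↔ ∃ k, G (initList X k) n = some y) :
    ∃ G : List ℕ → ℕ → Option ℕ, IsFunctional G ∧
      ∀ n y, y ∈ (Nat.pair <$> f n <*> h n) ↔ ∃ k, G (initList X k) n = some y := by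
  obtain ⟨Gf, hGf, hf⟩ := ihf
  obtain ⟨Gh, hGh, hh⟩ := ihh
  refine ⟨fun σ n => (Gf σ n).bind fun a => (Gh σ n).map fun b => Nat.pair a b, ⟨?_, ?_⟩, ?_⟩
  · have hc : Computable₂ fun (p : (List ℕ × ℕ) × ℕ) (b : ℕ) => Nat.pair p.2 b :=
      (Primrec₂.natPair.comp (Primrec.snd.comp Primrec.fst) Primrec.snd).to_comp
    have h2 : Computable₂ fun (p : List ℕ × ℕ) (a : ℕ) =>
        (Gh p.1 p.2).map fun b => Nat.pair a b :=
      Computable.option_map (hGh.comp.comp (Computable.fst.comp Computable.fst)
        (Computable.snd.comp Computable.fst)) hc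
    exact Computable.option_bind (hGf.comp.comp Computable.fst Computable.snd) h2
  · intro σ τ n y hστ hy
    simp only [Option.bind_eq_some_iff, Option.map_eq_some_iff] at hy ⊢
    obtain ⟨a, ha, b, hb, hab⟩ := hy
    exact ⟨a, hGf.mono _ _ _ _ hστ ha, b, hGh.mono _ _ _ _ hστ hb, hab⟩
  · intro n y
    simp only [Option.bind_eq_some_iff, Option.map_eq_some_iff]
    constructor
    · intro hy
      simp only [Seq.seq, Part.bind_map, Part.map_eq_map, Part.mem_bind_iff, Part.mem_map_iff] at hy
      obtain ⟨a, ha, b, hb, hab⟩ := hy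
      obtain ⟨k, hk⟩ := (hf n a).1 ha
      obtain ⟨l, hl⟩ := (hh n b).1 hb
      exact ⟨max k l, a, hGf.mono _ _ _ _ (initList_mono X (le_max_left k l)) hk, b,
        hGh.mono _ _ _ _ (initList_mono X (le_max_right k l)) hl, hab⟩
    · rintro ⟨k, a, ha, b, hb, hab⟩
      simp only [Seq.seq, Part.bind_map, Part.map_eq_map, Part.mem_bind_iff, Part.mem_map_iff]
      exact ⟨a, (hf n a).2 ⟨k, ha⟩, b, (hh n b).2 ⟨k, hb⟩, hab⟩

theorem use_comp {X : ℕ → ℕ} {f h : ℕ →. ℕ}
    (ihf : ∃ G : List ℕ → ℕ → Option ℕ, IsFunctional G ∧
      ∀ n y, y ∈ f n ↔ ∃ k, G (initList X k) n = some y)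
    (ihh : ∃ G : List ℕ → ℕ → Option ℕ, IsFunctional G ∧
      ∀ n y, y ∈ h n ↔ ∃ k, G (initList X k) n = some y) :
    ∃ G : List ℕ → ℕ → Option ℕ, IsFunctional G ∧
      ∀ n y, y ∈ (h n >>= f) ↔ ∃ k, G (initList X k) n = some y := by
  obtain ⟨Gf, hGf, hf⟩ := ihf
  obtain ⟨Gh, hGh, hh⟩ := ihh
  refine ⟨fun σ n => (Gh σ n).bind fun a => Gf σ a, ⟨?_, ?_⟩, ?_⟩
  · have h2 : Computable₂ fun (p : List ℕ × ℕ) (a : ℕ) => Gf p.1 a :=
      hGf.comp.comp (Computable.fst.comp Computable.fst) Computable.snd
    exact Computable.option_bind (hGh.comp.comp Computable.fst Computable.snd) h2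
  · intro σ τ n y hστ hy
    simp only [Option.bind_eq_some_iff] at hy ⊢
    obtain ⟨a, ha, hb⟩ := hy
    exact ⟨a, hGh.mono _ _ _ _ hστ ha, hGf.mono _ _ _ _ hστ hb⟩
  · intro n y
    simp only [Option.bind_eq_some_iff, Part.bind_eq_bind, Part.mem_bind_iff]
    constructor
    · rintro ⟨a, ha, hb⟩
      obtain ⟨k, hk⟩ := (hh n a).1 ha
      obtain ⟨l, hl⟩ := (hf a y).1 hb
      exact ⟨max k l, a, hGh.mono _ _ _ _ (initList_mono X (le_max_left k l)) hk,
        hGf.mono _ _ _ _ (initList_mono X (le_max_right k l)) hl⟩
    · rintro ⟨k, a, ha, hb⟩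
      exact ⟨a, (hh n a).2 ⟨k, ha⟩, (hf a y).2 ⟨k, hb⟩⟩

theorem use_prec {X : ℕ → ℕ} {f h : ℕ →. ℕ}
    (ihf : ∃ G : List ℕ → ℕ → Option ℕ, IsFunctional G ∧
      ∀ n y, y ∈ f n ↔ ∃ k, G (initList X k) n = some y)
    (ihh : ∃ G : List ℕ → ℕ → Option ℕ, IsFunctional G ∧
      ∀ n y, y ∈ h n ↔ ∃ k, G (initList X k) n = some y) :
    ∃ G : List ℕ → ℕ → Option ℕ, IsFunctional G ∧
      ∀ n y, y ∈ (n.unpair.2.rec (f n.unpair.1) (fun y IH => do
          let i ← IH
          h (Nat.pair n.unpair.1 (Nat.pair y i))) : Part ℕ) ↔
        ∃ k, G (initList X k) n = some y := by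
  obtain ⟨Gf, hGf, hf⟩ := ihf
  obtain ⟨Gh, hGh, hh⟩ := ihh
  refine ⟨fun σ n => n.unpair.2.rec (Gf σ n.unpair.1)
    (fun y IH => IH.bind fun i => Gh σ (Nat.pair n.unpair.1 (Nat.pair y i))), ⟨?_, ?_⟩, ?_⟩
  · refine Computable.nat_rec (f := fun p : List ℕ × ℕ => p.2.unpair.2)
      (g := fun p : List ℕ × ℕ => Gf p.1 p.2.unpair.1)
      (h := fun (p : List ℕ × ℕ) (q : ℕ × Option ℕ) =>
        q.2.bind fun i => Gh p.1 (Nat.pair p.2.unpair.1 (Nat.pair q.1 i))) ?_ ?_ ?_
    · exact Computable.snd.comp (Computable.unpair.comp Computable.snd)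
    · exact hGf.comp.comp Computable.fst
        (Computable.fst.comp (Computable.unpair.comp Computable.snd))
    · refine Computable.option_bind (Computable.snd.comp Computable.snd) ?_
      refine hGh.comp.comp (Computable.fst.comp (Computable.fst.comp Computable.fst)) ?_
      have h1 : Primrec fun r : ((List ℕ × ℕ) × ℕ × Option ℕ) × ℕ =>
          Nat.pair r.1.1.2.unpair.1 (Nat.pair r.1.2.1 r.2) :=
        Primrec₂.natPair.comp (Primrec.fst.comp (Primrec.unpair.comp
          (Primrec.snd.comp (Primrec.fst.comp Primrec.fst))))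
          (Primrec₂.natPair.comp (Primrec.fst.comp (Primrec.snd.comp Primrec.fst)) Primrec.snd)
      exact h1.to_comp
  · intro σ τ n y hστ
    generalize n.unpair.2 = m
    induction m generalizing y with
    | zero => exact hGf.mono _ _ _ _ hστ
    | succ m ih =>
      intro hy
      simp only [Option.bind_eq_some_iff] at hy ⊢
      obtain ⟨a, ha, hb⟩ := hy
      exact ⟨a, ih a ha, hGh.mono _ _ _ _ hστ hb⟩
  · intro n y
    beta_reduce
    generalize n.unpair.2 = m
    induction m generalizing y with
    | zero => exact hf _ _
    | succ m ih =>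
      simp only [Option.bind_eq_some_iff, Part.bind_eq_bind, Part.mem_bind_iff]
      have hmono : ∀ (σ τ : List ℕ) (y : ℕ), σ <+: τ →
          (Nat.rec (Gf σ n.unpair.1) (fun y IH => Option.bind IH fun i =>
            Gh σ (Nat.pair n.unpair.1 (Nat.pair y i))) m : Option ℕ) = some y →
          (Nat.rec (Gf τ n.unpair.1) (fun y IH => Option.bind IH fun i =>
            Gh τ (Nat.pair n.unpair.1 (Nat.pair y i))) m : Option ℕ) = some y := by
        intro σ τ y hστ
        clear ih
        induction m generalizing y with
        | zero => exact hGf.mono _ _ _ _ hστ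
        | succ m ih =>
          intro hy
          simp only [Option.bind_eq_some_iff] at hy ⊢
          obtain ⟨a, ha, hb⟩ := hy
          exact ⟨a, ih a ha, hGh.mono _ _ _ _ hστ hb⟩
      constructor
      · rintro ⟨a, ha, hb⟩
        obtain ⟨k, hk⟩ := (ih a).1 ha
        obtain ⟨l, hl⟩ := (hh _ y).1 hb
        exact ⟨max k l, a, hmono _ _ _ (initList_mono X (le_max_left k l)) hk,
          hGh.mono _ _ _ _ (initList_mono X (le_max_right k l)) hl⟩
      · rintro ⟨k, a, ha, hb⟩
        exact ⟨a, (ih a).2 ⟨k, ha⟩, (hh _ y).2 ⟨k, hb⟩⟩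

theorem use_rfind {X : ℕ → ℕ} {f : ℕ →. ℕ}
    (ihf : ∃ G : List ℕ → ℕ → Option ℕ, IsFunctional G ∧
      ∀ n y, y ∈ f n ↔ ∃ k, G (initList X k) n = some y) :
    ∃ G : List ℕ → ℕ → Option ℕ, IsFunctional G ∧
      ∀ a y, y ∈ (Nat.rfind fun n => (fun m => decide (m = 0)) <$> f (Nat.pair a n)) ↔
        ∃ k, G (initList X k) a = some y := by
  obtain ⟨Gf, hGf, hf⟩ := ihf
  have key : ∀ σ a y, (searchState (fun j => Gf σ (Nat.pair a j)) σ.length).bind id = some y ↔
      y < σ.length ∧ Gf σ (Nat.pair a y) = some 0 ∧
        ∀ j < y, ∃ m, Gf σ (Nat.pair a j) = some (m + 1) := by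
    intro σ a y
    rw [← (searchState_spec (fun j => Gf σ (Nat.pair a j)) σ.length).2 y]
    simp [Option.bind_eq_some_iff]
  refine ⟨fun σ a => (searchState (fun j => Gf σ (Nat.pair a j)) σ.length).bind id,
    ⟨?_, ?_⟩, ?_⟩
  · have hst : Computable fun p : List ℕ × ℕ =>
        searchState (fun j => Gf p.1 (Nat.pair p.2 j)) p.1.length := by
      have h1 : Computable fun p : List ℕ × ℕ =>
          (Nat.rec (some none) (fun i IH => Option.bind IH fun s =>
            s.casesOn ((Gf p.1 (Nat.pair p.2 i)).map fun v =>
              v.casesOn (some i) fun _ => none) fun k => some (some k)) p.1.length :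
            Option (Option ℕ)) := by
        refine Computable.nat_rec (f := fun p : List ℕ × ℕ => p.1.length)
          (g := fun _ => some none)
          (h := fun (p : List ℕ × ℕ) (q : ℕ × Option (Option ℕ)) =>
            q.2.bind fun s => s.casesOn ((Gf p.1 (Nat.pair p.2 q.1)).map fun v =>
              v.casesOn (some q.1) fun _ => none) fun k => some (some k)) ?_ ?_ ?_
        · exact Computable.list_length.comp Computable.fst
        · exact Computable.const _
        · refine Computable.option_bind (Computable.snd.comp Computable.snd) ?_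
          refine Computable.option_casesOn Computable.snd ?_ ?_
          · refine Computable.option_map ?_ ?_
            · refine hGf.comp.comp (Computable.fst.comp (Computable.fst.comp Computable.fst)) ?_
              exact (Primrec₂.natPair.comp (Primrec.snd.comp (Primrec.fst.comp Primrec.fst))
                (Primrec.fst.comp (Primrec.snd.comp Primrec.fst))).to_comp
            · refine Computable.nat_casesOn Computable.snd ?_ ?_
              · exact Computable.option_some.comp
                  (Computable.fst.comp (Computable.snd.comp (Computable.fst.comp Computable.fst)))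
              · exact Computable.const _
          · exact Computable.option_some.comp (Computable.option_some.comp Computable.snd)
      refine h1.of_eq fun p => ?_
      generalize p.1.length = m
      induction m with
      | zero => rfl
      | succ m ih => simp only [searchState, ← ih]
    exact Computable.option_bind hst Computable.snd
  · intro σ τ a y hστ hy
    rw [key] at hy ⊢
    obtain ⟨h1, h2, h3⟩ := hy
    exact ⟨lt_of_lt_of_le h1 hστ.length_le, hGf.mono _ _ _ _ hστ h2,
      fun j hj => (h3 j hj).imp fun m hm => hGf.mono _ _ _ _ hστ hm⟩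
  · intro a y
    beta_reduce
    simp only [key]
    simp only [initList_length]
    rw [Nat.mem_rfind]
    simp only [Part.map_eq_map, Part.mem_map_iff, decide_eq_true_eq, decide_eq_false_iff_not]
    constructor
    · rintro ⟨⟨z, hz, rfl⟩, h2⟩
      obtain ⟨k0, hk0⟩ := (hf _ _).1 hz
      have h3 : ∀ n ≤ y, ∃ k, ∀ j < n, ∃ m, Gf (initList X k) (Nat.pair a j) = some (m + 1) := by
        intro n
        induction n with
        | zero => exact fun _ => ⟨0, fun j hj => absurd hj (by omega)⟩
        | succ n ih =>
          intro hn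
          obtain ⟨k, hk⟩ := ih (by omega)
          obtain ⟨z, hz, hz0⟩ := h2 (m := n) (by omega)
          obtain ⟨l, hl⟩ := (hf _ _).1 hz
          refine ⟨max k l, fun j hj => ?_⟩
          rcases Nat.lt_succ_iff_lt_or_eq.1 hj with h | h
          · exact (hk j h).imp fun m hm =>
              hGf.mono _ _ _ _ (initList_mono X (le_max_left k l)) hm
          · obtain ⟨m, rfl⟩ := Nat.exists_eq_succ_of_ne_zero hz0
            rw [h]
            exact ⟨m, hGf.mono _ _ _ _ (initList_mono X (le_max_right k l)) hl⟩
      obtain ⟨k, hk⟩ := h3 y le_rfl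
      refine ⟨max (max k k0) (y + 1), by omega, ?_, fun j hj => ?_⟩
      · exact hGf.mono _ _ _ _ (initList_mono X (by omega)) hk0
      · exact (hk j hj).imp fun m hm => hGf.mono _ _ _ _ (initList_mono X (by omega)) hm
    · rintro ⟨k, h1, h2, h3⟩
      refine ⟨⟨0, (hf _ _).2 ⟨k, h2⟩, rfl⟩, fun {m} hm => ?_⟩
      obtain ⟨z, hz⟩ := h3 m hm
      exact ⟨z + 1, (hf _ _).2 ⟨k, hz⟩, by simp⟩

theorem use_principle (X : ℕ → ℕ) {f : ℕ →. ℕ}
    (hf : Nat.RecursiveIn {fun n => Part.some (X n)} f) :
    ∃ G : List ℕ → ℕ → Option ℕ, IsFunctional G ∧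
      ∀ n y, y ∈ f n ↔ ∃ k, G (initList X k) n = some y := by
  induction hf with
  | zero =>
    refine ⟨fun _ _ => some 0, ⟨(Computable.const _).to₂, fun _ _ _ _ _ h => h⟩, fun n y => ?_⟩
    change y ∈ Part.some 0 ↔ _
    simp [eq_comm]
  | succ =>
    refine ⟨fun _ n => some (n + 1), ⟨?_, fun _ _ _ _ _ h => h⟩, fun n y => ?_⟩
    · exact Computable.option_some.comp (Computable.succ.comp Computable.snd)
    · simp [eq_comm]
  | left =>
    refine ⟨fun _ n => some n.unpair.1, ⟨?_, fun _ _ _ _ _ h => h⟩, fun n y => ?_⟩
    · exact Computable.option_some.comp (Computable.fst.comp (Computable.unpair.comp Computable.snd))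
    · simp [eq_comm]
  | right =>
    refine ⟨fun _ n => some n.unpair.2, ⟨?_, fun _ _ _ _ _ h => h⟩, fun n y => ?_⟩
    · exact Computable.option_some.comp (Computable.snd.comp (Computable.unpair.comp Computable.snd))
    · simp [eq_comm]
  | oracle g hg =>
    obtain rfl : g = fun n => Part.some (X n) := hg
    refine ⟨fun σ n => σ[n]?, ⟨?_, ?_⟩, fun n y => ?_⟩
    · exact Computable.list_getElem?
    · rintro σ τ n y ⟨ρ, rfl⟩ h
      obtain ⟨hn, hy⟩ := List.getElem?_eq_some_iff.1 h
      rw [List.getElem?_append_left hn, h]
    · rw [Part.mem_some_iff]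
      constructor
      · rintro rfl
        exact ⟨n + 1, initList_getElem? X _ _ (by omega)⟩
      · rintro ⟨k, hk⟩
        beta_reduce at hk
        obtain ⟨hn, hy⟩ := List.getElem?_eq_some_iff.1 hk
        rw [initList_length] at hn
        rw [initList_getElem? X _ _ hn] at hk
        exact (Option.some.inj hk).symm
  | pair hf hh ihf ihh => exact use_pair ihf ihh
  | comp hf hh ihf ihh => exact use_comp ihf ihh
  | prec hf hh ihf ihh => exact use_prec ihf ihh
  | rfind hf ihf => exact use_rfind ihf

end Pool.Agent.Helper30.SatB
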