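import Mathlib
import Pool.Agent.Helper30.SatB.Use

/-!
# Total functions computable from an oracle `X : ℕ → ℕ`
-/

set_option autoImplicit false

namespace Pool.Agent.Helper30.SatB

/-- The total function `f` is computable from the total function `X`. -/
def RI (X f : ℕ → ℕ) : Prop :=
  Nat.RecursiveIn {fun n => Part.some (X n)} (fun n => Part.some (f n))

namespace RI

variable {X f g h : ℕ → ℕ}

theorem of_eq (hf : RI X f) (H : ∀ n, f n = g n) : RI X g := by
  rw [← funext H]
  exact hf

theorem of_computable (hf : Computable f) : RI X f := by
  have h1 : Nat.Partrec fun n => Part.some (f n) := Partrec.nat_iff.1 hf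
  exact h1.recursiveIn

theorem of_primrec (hf : Primrec f) : RI X f := of_computable hf.to_comp

theorem oracle : RI X X := Nat.RecursiveIn.oracle _ rfl

theorem comp (hf : RI X f) (hg : RI X g) : RI X fun n => f (g n) := by
  refine Nat.RecursiveIn.of_eq (Nat.RecursiveIn.comp hf hg) fun n => ?_
  simp

theorem pair (hf : RI X f) (hg : RI X g) : RI X fun n => Nat.pair (f n) (g n) := by
  refine Nat.RecursiveIn.of_eq (Nat.RecursiveIn.pair hf hg) fun n => ?_
  simp [Seq.seq]

/-- Composition with a computable binary function. -/
theorem comp₂ {F : ℕ → ℕ → ℕ} (hF : Computable₂ F) (hf : RI X f) (hg : RI X g) :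
    RI X fun n => F (f n) (g n) := by
  have h1 : RI X fun p => F p.unpair.1 p.unpair.2 :=
    of_computable (hF.comp (Computable.fst.comp Computable.unpair)
      (Computable.snd.comp Computable.unpair))
  refine (h1.comp (hf.pair hg)).of_eq fun n => ?_
  simp

theorem prec (hf : RI X f) (hh : RI X h) :
    RI X fun p => Nat.rec (f p.unpair.1)
      (fun y IH => h (Nat.pair p.unpair.1 (Nat.pair y IH))) p.unpair.2 := by
  refine Nat.RecursiveIn.of_eq (Nat.RecursiveIn.prec hf hh) fun p => ?_
  simp only
  generalize p.unpair.2 = m
  induction m with
  | zero => rfl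
  | succ m ih =>
    change Part.bind _ _ = _
    rw [ih, Part.bind_some]

theorem find (hf : RI X f) (hex : ∀ a, ∃ n, f (Nat.pair a n) = 0) :
    RI X fun a => Nat.find (hex a) := by
  refine Nat.RecursiveIn.of_eq (Nat.RecursiveIn.rfind hf) fun a => ?_
  rw [Part.eq_some_iff, Nat.mem_rfind]
  constructor
  · simpa using Nat.find_spec (hex a)
  · intro m hm
    simpa using Nat.find_min (hex a) hm

/-- Transitivity. -/
theorem trans {Y : ℕ → ℕ} (hf : RI X f) (hX : RI Y X) : RI Y f := by
  refine Nat.RecursiveIn.subst hf ?_
  rintro g rfl
  exact hX

/-- Initial segments of the oracle are computable from the oracle. -/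
theorem initList : RI X fun k => Encodable.encode (SatB.initList X k) := by
  have h1 : RI X fun p : ℕ => X p.unpair.2.unpair.1 :=
    oracle.comp (of_computable (Computable.fst.comp (Computable.unpair.comp
      (Computable.snd.comp Computable.unpair))))
  have hF : Computable₂ fun (i x : ℕ) =>
      Encodable.encode (((Encodable.decode (α := List ℕ) i).getD []) ++ [x]) := by
    refine Computable.encode.comp (Computable.list_append.comp ?_ ?_)
    · exact Computable.option_getD (Computable.decode.comp Computable.fst) (Computable.const _)
    · exact Computable.list_cons.comp Computable.snd (Computable.const _)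
  have h2 : RI X fun p : ℕ => Encodable.encode
      (((Encodable.decode (α := List ℕ) p.unpair.2.unpair.2).getD []) ++
        [X p.unpair.2.unpair.1]) :=
    comp₂ hF (of_computable (Computable.snd.comp (Computable.unpair.comp
      (Computable.snd.comp Computable.unpair)))) h1
  have h3 := prec (X := X) (of_computable (Computable.const (Encodable.encode ([] : List ℕ)))) h2
  have h4 := h3.comp (of_computable (f := fun n : ℕ => Nat.pair 0 n)
    ((Primrec₂.natPair.comp (Primrec.const 0) Primrec.id).to_comp))
  refine h4.of_eq fun k => ?_
  simp only [Nat.unpair_pair]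
  induction k with
  | zero => rfl
  | succ k ih =>
    simp only [ih, Encodable.encodek, Option.getD_some]
    congr 1
    simp [SatB.initList, List.range_succ]

/-- A total function given by a computable functional on initial segments of `X` is computable
from `X`. -/
theorem of_functional {G : List ℕ → ℕ → Option ℕ} (hG : Computable₂ G)
    (h1 : ∀ n, ∃ k, G (SatB.initList X k) n = some (f n))
    (h2 : ∀ n k y, G (SatB.initList X k) n = some y → y = f n) : RI X f := by
  have hT : Computable₂ fun (i n : ℕ) =>
      (Option.casesOn (G ((Encodable.decode (α := List ℕ) i).getD []) n) 1 (fun _ => 0) : ℕ) := by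
    refine Computable.option_casesOn ?_ (Computable.const _) (Computable.const _)
    exact hG.comp (Computable.option_getD (Computable.decode.comp Computable.fst)
      (Computable.const _)) Computable.snd
  have hV : Computable₂ fun (i n : ℕ) =>
      ((G ((Encodable.decode (α := List ℕ) i).getD []) n).getD 0 : ℕ) := by
    refine Computable.option_getD ?_ (Computable.const _)
    exact hG.comp (Computable.option_getD (Computable.decode.comp Computable.fst)
      (Computable.const _)) Computable.snd
  have h3 : RI X fun p : ℕ => (Option.casesOn (G (SatB.initList X p.unpair.2) p.unpair.1) 1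
      (fun _ => 0) : ℕ) := by
    refine (comp₂ hT (initList.comp (of_computable (Computable.snd.comp Computable.unpair)))
      (of_computable (Computable.fst.comp Computable.unpair))).of_eq fun p => ?_
    simp
  have hex : ∀ a, ∃ n, (Option.casesOn (G (SatB.initList X (Nat.pair a n).unpair.2)
      (Nat.pair a n).unpair.1) 1 (fun _ => 0) : ℕ) = 0 := by
    intro a
    obtain ⟨k, hk⟩ := h1 a
    exact ⟨k, by simp [hk]⟩
  have h4 := h3.find hex
  have h5 : RI X fun a => (G (SatB.initList X (Nat.find (hex a))) a).getD 0 := by
    refine (comp₂ hV (initList.comp h4) (of_computable Computable.id)).of_eq fun p => ?_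
    simp
  refine h5.of_eq fun a => ?_
  have h6 := Nat.find_spec (hex a)
  generalize Nat.find (hex a) = k at h6 ⊢
  simp only [Nat.unpair_pair] at h6
  rcases h7 : G (SatB.initList X k) a with _ | y
  · rw [h7] at h6
    exact absurd h6 (by simp)
  · simpa using h2 _ _ _ h7

end RI

end Pool.Agent.Helper30.SatB
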