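import Mathlib

/-!
# Saturated models of theories with computable types: definitions

Computably presented languages, Gödel numbers of first-order formulas, decidable theories,
computable types, saturated structures, decidable presentations relative to an oracle,
the Turing jump, high sets, and sets of PA degree.
-/

set_option autoImplicit false

namespace Pool.Agent.Helper30.SatB

open FirstOrder FirstOrder.Language

/-! ### Languages and Gödel numbers -/

/-- The countable first-order language whose `n`-ary function symbols are the `i : ℕ` with `F n i`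
and whose `n`-ary relation symbols are the `i : ℕ` with `R n i`. -/
def presLang (F R : ℕ → ℕ → Prop) : FirstOrder.Language.{0, 0} where
  Functions n := {i : ℕ // F n i}
  Relations n := {i : ℕ // R n i}

/-- The Gödel number of a term in the variables `x₀, …, x_{n-1}`. -/
def termCode {F R : ℕ → ℕ → Prop} {n : ℕ} : (presLang F R).Term (Empty ⊕ Fin n) → ℕ
  | .var x => Nat.pair 0 (Sum.elim (fun e => e.elim) (fun i : Fin n => (i : ℕ)) x)
  | @Term.func _ _ l f ts =>
      Nat.pair (Nat.pair l f.1 + 1) (Encodable.encode (List.ofFn fun i => termCode (ts i)))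

/-- The Gödel number of a formula in the free variables `x₀, …, x_{n-1}`; a quantifier in such a
formula binds the variable `x_n`. -/
def formulaCode {F R : ℕ → ℕ → Prop} : ∀ {n : ℕ}, (presLang F R).BoundedFormula Empty n → ℕ
  | _, .falsum => Nat.pair 0 0
  | _, .equal t s => Nat.pair 1 (Nat.pair (termCode t) (termCode s))
  | _, @BoundedFormula.rel _ _ _ l r ts =>
      Nat.pair 2 (Nat.pair (Nat.pair l r.1)
        (Encodable.encode (List.ofFn fun i => termCode (ts i))))
  | _, .imp φ ψ => Nat.pair 3 (Nat.pair (formulaCode φ) (formulaCode ψ))
  | _, .all φ => Nat.pair 4 (formulaCode φ)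

/-! ### Theories, types and structures -/

/-- A theory is decidable if the set of (Gödel numbers of) its sentences is computable. -/
def DecidableTheory {F R : ℕ → ℕ → Prop} (T : (presLang F R).Theory) : Prop :=
  ComputablePred fun c : ℕ => ∃ φ ∈ T, formulaCode φ = c

/-- The complete type of the tuple `v` in the structure `M`, as a set of Gödel numbers of formulas
in the variables `x₀, …, x_{n-1}`. -/
def typeOf (F R : ℕ → ℕ → Prop) {M : Type} [(presLang F R).Structure M] {n : ℕ} (v : Fin n → M) :
    Set ℕ :=
  {c | ∃ φ : (presLang F R).BoundedFormula Empty n, φ.Realize default v ∧ formulaCode φ = c}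

/-- All (complete, finitary) types of the theory `T` are computable. The types of `T` are the
complete types of the finite tuples in the models of `T`. -/
def TypesComputable {F R : ℕ → ℕ → Prop} (T : (presLang F R).Theory) : Prop :=
  ∀ (M : Type) [(presLang F R).Structure M] [Nonempty M], M ⊨ T →
    ∀ (n : ℕ) (v : Fin n → M), ComputablePred fun c : ℕ => c ∈ typeOf F R v

/-- A structure is (`ℵ₀`-)saturated if for every finite tuple `a` every set `p` of formulas
`φ(a, x)` in finitely many free variables `x` which is finitely satisfiable in the structure is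
realized by one tuple. -/
def Saturated {L : FirstOrder.Language.{0, 0}} (M : Type) [L.Structure M] : Prop :=
  ∀ (m : ℕ) (a : Fin m → M) (n : ℕ) (p : Set (L.BoundedFormula Empty (m + n))),
    (∀ s : Finset (L.BoundedFormula Empty (m + n)), (s : Set _) ⊆ p →
      ∃ c : Fin n → M, ∀ φ ∈ s, φ.Realize default (Fin.append a c)) →
    ∃ c : Fin n → M, ∀ φ ∈ p, φ.Realize default (Fin.append a c)

/-- The elementary diagram of a structure with domain `ℕ`: the pairs `(n, φ)` where `φ` is a
formula in `x₀, …, x_{n-1}` which is true when each `x_i` is interpreted as the element `i`. -/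
def elementaryDiagram {F R : ℕ → ℕ → Prop} (S : (presLang F R).Structure ℕ) : Set ℕ :=
  {k | ∃ φ : (presLang F R).BoundedFormula Empty k.unpair.1,
    φ.Realize default (fun i => (i : ℕ)) ∧ formulaCode φ = k.unpair.2}

/-! ### Relative computability -/

open Classical in
/-- The characteristic function of a set of natural numbers. -/
noncomputable def charFun (X : Set ℕ) : ℕ → ℕ := fun n => if n ∈ X then 1 else 0

/-- `A` is Turing reducible to `B`. -/
def SetReducible (A B : Set ℕ) : Prop :=
  TuringReducible (fun n => Part.some (charFun A n)) (fun n => Part.some (charFun B n))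

/-- The (code of the) initial segment of length `k` of a function. -/
def initSeg (f : ℕ → ℕ) (k : ℕ) : ℕ := Encodable.encode ((List.range k).map f)

/-- The Turing jump `X'`, as the complete computably enumerable set relative to `X`: the pairs
`(e, n)` such that the `e`-th c.e. operator enumerates `n` relative to `X`, i.e. `(σ, n)` is in the
`e`-th c.e. set for some initial segment `σ` of the characteristic function of `X`. -/
def jump (X : Set ℕ) : Set ℕ :=
  {m | ∃ k : ℕ, (Nat.Partrec.Code.eval (Denumerable.ofNat Nat.Partrec.Code m.unpair.1)
    (Nat.pair (initSeg (charFun X) k) m.unpair.2)).Dom}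

/-- `X` is high if `X' ≥_T ∅''`. -/
def High (X : Set ℕ) : Prop := SetReducible (jump (jump ∅)) (jump X)

/-- `X` is saturated bounding if every complete decidable theory all of whose types are
computable (in a computably presented language, with an infinite model) has a saturated model
with domain `ℕ` whose elementary diagram is computable from `X`. -/
def SaturatedBounding (X : Set ℕ) : Prop :=
  ∀ F R : ℕ → ℕ → Prop, ComputablePred (fun p : ℕ × ℕ => F p.1 p.2) →
    ComputablePred (fun p : ℕ × ℕ => R p.1 p.2) →
    ∀ T : (presLang F R).Theory, T.IsMaximal → DecidableTheory T → TypesComputable T →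
      (∃ (M : Type) (_ : (presLang F R).Structure M), Infinite M ∧ M ⊨ T) →
      ∃ S : (presLang F R).Structure ℕ, ℕ ⊨ T ∧ Saturated (L := presLang F R) ℕ ∧
        SetReducible (elementaryDiagram S) X

/-! ### Peano arithmetic -/

/-- The symbols of the language of arithmetic: the constant `0`, the unary successor, and the
binary operations `+` (index `0`) and `·` (index `1`). -/
def arithSymbols (n i : ℕ) : Prop := (n = 0 ∧ i = 0) ∨ (n = 1 ∧ i = 0) ∨ (n = 2 ∧ i < 2)

/-- The language of arithmetic. -/
abbrev arithLang : FirstOrder.Language.{0, 0} := presLang arithSymbols (fun _ _ => False)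

section Peano

variable {M : Type} [arithLang.Structure M]

/-- The interpretation of the symbol `0`. -/
def pZero (M : Type) [arithLang.Structure M] : M :=
  Structure.funMap (L := arithLang) (n := 0) ⟨0, Or.inl ⟨rfl, rfl⟩⟩ ![]

/-- The interpretation of the successor symbol. -/
def pSucc (x : M) : M :=
  Structure.funMap (L := arithLang) (n := 1) ⟨0, Or.inr (Or.inl ⟨rfl, rfl⟩)⟩ ![x]

/-- The interpretation of `+`. -/
def pAdd (x y : M) : M :=
  Structure.funMap (L := arithLang) (n := 2) ⟨0, Or.inr (Or.inr ⟨rfl, Nat.zero_lt_two⟩)⟩ ![x, y]

/-- The interpretation of `·`. -/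
def pMul (x y : M) : M :=
  Structure.funMap (L := arithLang) (n := 2) ⟨1, Or.inr (Or.inr ⟨rfl, Nat.one_lt_two⟩)⟩ ![x, y]

end Peano

/-- `M` is a model of first-order Peano arithmetic. -/
structure PeanoModel (M : Type) [arithLang.Structure M] : Prop where
  succ_ne_zero : ∀ x : M, pSucc x ≠ pZero M
  succ_inj : ∀ x y : M, pSucc x = pSucc y → x = y
  add_zero : ∀ x : M, pAdd x (pZero M) = x
  add_succ : ∀ x y : M, pAdd x (pSucc y) = pSucc (pAdd x y)
  mul_zero : ∀ x : M, pMul x (pZero M) = pZero M
  mul_succ : ∀ x y : M, pMul x (pSucc y) = pAdd (pMul x y) x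
  induction : ∀ (n : ℕ) (φ : arithLang.BoundedFormula Empty (n + 1)) (v : Fin n → M),
    φ.Realize default (Fin.snoc v (pZero M) : Fin (n + 1) → M) →
    (∀ x : M, φ.Realize default (Fin.snoc v x : Fin (n + 1) → M) →
      φ.Realize default (Fin.snoc v (pSucc x) : Fin (n + 1) → M)) →
    ∀ x : M, φ.Realize default (Fin.snoc v x : Fin (n + 1) → M)

/-- `X` has PA degree if it computes (the set of Gödel numbers of) a complete consistent extension
of Peano arithmetic. -/
def PADegree (X : Set ℕ) : Prop :=
  ∃ T : arithLang.Theory, T.IsMaximal ∧
    (∀ (M : Type) [arithLang.Structure M] [Nonempty M], M ⊨ T → PeanoModel M) ∧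
    SetReducible {c | ∃ φ ∈ T, formulaCode φ = c} X

end Pool.Agent.Helper30.SatB
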