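import Mathlib
import Pool.Agent.Helper30.SatB.Rel
import Pool.Agent.Helper30.SatB.Comp

/-!
# Event-stream forcing: conditions
-/

set_option autoImplicit false

namespace Pool.Agent.Helper30.SatB

/-- An abstract coding system: conditions `C` with an extension relation, each deciding a set `D a`
of facts. -/
structure CodeSystem where
  C : Type
  le : C → C → Prop
  le_refl : ∀ a, le a a
  le_trans : ∀ a b c, le a b → le b c → le a c
  D : C → Set ℕ
  D_mono : ∀ a b, le a b → D a ⊆ D b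
  D_comp : ∀ a, ComputablePred fun v : ℕ => v ∈ D a
  lev : C → ℕ
  f : ℕ → List ℕ → List ℕ
  f_comp : Computable₂ f
  f_spec : ∀ b F, (∃ c, le b c ∧ ∀ v ∈ F, v ∈ D c) ↔ ∀ v ∈ f (lev b) F, v ∈ D b
  ext : ∀ a n, lev a ≤ n → ∃ b, le a b ∧ lev b = n
  test : C → ℕ → List ℕ → List ℕ → Bool
  test_comp : ∀ a, Computable fun p : ℕ × List ℕ × List ℕ => test a p.1 p.2.1 p.2.2
  test_spec : ∀ a n P Q, test a n P Q = true ↔
    ∃ b, le a b ∧ lev b = n ∧ (∀ v ∈ P, v ∈ D b) ∧ ∀ v ∈ Q, v ∉ D b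
  sat : ∀ a n (R : Set ℕ),
    (∀ P Q : List ℕ, (∀ v ∈ P, v ∈ R) → (∀ v ∈ Q, v ∉ R) → test a n P Q = true) →
    ∃ b, le a b ∧ lev b = n ∧ D b = R
  dense : ℕ → Set C
  dense_spec : ∀ i a, ∃ b, le a b ∧ b ∈ dense i
  start : C

variable {J : Type}

/-- Forcing conditions: a finite string `σ` of events, a bound `N` on the columns in use, and the
conditions attached to the active columns. -/
structure Cond (S : J → CodeSystem) where
  σ : List ℕ
  N : ℕ
  col : ℕ → Option (Σ j, (S j).C)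
  hcol : ∀ k, N ≤ k → col k = none

variable {S : J → CodeSystem}

/-- `q` extends `p`. -/
structure Ext (p q : Cond S) : Prop where
  pre : p.σ <+: q.σ
  N_le : p.N ≤ q.N
  act : ∀ k j a, p.col k = some ⟨j, a⟩ → ∃ b, q.col k = some ⟨j, b⟩ ∧ (S j).le a b
  frozen : ∀ k, k < p.N → p.col k = none → q.col k = none
  ev : ∀ e ∈ q.σ.drop p.σ.length, p.N ≤ e.unpair.1 ∨
    ∃ j b, p.col e.unpair.1 ≠ none ∧ q.col e.unpair.1 = some ⟨j, b⟩ ∧ e.unpair.2 ∈ (S j).D b

theorem Ext.refl (p : Cond S) : Ext p p where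
  pre := List.prefix_rfl
  N_le := le_rfl
  act := fun k j a h => ⟨a, h, (S j).le_refl a⟩
  frozen := fun k _ h => h
  ev := by simp

theorem Ext.trans {p q r : Cond S} (h1 : Ext p q) (h2 : Ext q r) : Ext p r where
  pre := h1.pre.trans h2.pre
  N_le := h1.N_le.trans h2.N_le
  act := by
    intro k j a h
    obtain ⟨b, hb, hab⟩ := h1.act k j a h
    obtain ⟨c, hc, hbc⟩ := h2.act k j b hb
    exact ⟨c, hc, (S j).le_trans a b c hab hbc⟩
  frozen := fun k hk h => h2.frozen k (lt_of_lt_of_le hk h1.N_le) (h1.frozen k hk h)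
  ev := by
    intro e he
    obtain ⟨ρ, hρ⟩ := h1.pre
    obtain ⟨ρ', hρ'⟩ := h2.pre
    have e1 : r.σ.drop p.σ.length = ρ ++ ρ' := by
      rw [← hρ', ← hρ, List.append_assoc, List.drop_left]
    have e2 : q.σ.drop p.σ.length = ρ := by rw [← hρ, List.drop_left]
    have e3 : r.σ.drop q.σ.length = ρ' := by rw [← hρ', List.drop_left]
    rw [e1, List.mem_append] at he
    rcases he with he | he
    · rcases h1.ev e (by rw [e2]; exact he) with h | ⟨j, b, hp, hb, hD⟩
      · exact Or.inl h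
      · obtain ⟨c, hc, hbc⟩ := h2.act _ _ _ hb
        exact Or.inr ⟨j, c, hp, hc, (S j).D_mono b c hbc hD⟩
    · by_cases hN : p.N ≤ e.unpair.1
      · exact Or.inl hN
      · right
        rw [not_le] at hN
        rcases h2.ev e (by rw [e3]; exact he) with h | ⟨j, b, hq, hb, hD⟩
        · exact absurd (lt_of_lt_of_le hN h1.N_le) (not_lt.2 h)
        · refine ⟨j, b, fun hp => hq (h1.frozen _ hN hp), hb, hD⟩

/-- The active columns of a condition. -/
def Cond.active (p : Cond S) : List ℕ := (List.range p.N).filter fun k => (p.col k).isSome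

theorem Cond.mem_active (p : Cond S) (k : ℕ) : k ∈ p.active ↔ p.col k ≠ none := by
  simp only [Cond.active, List.mem_filter, List.mem_range, Option.isSome_iff_ne_none]
  constructor
  · exact fun h => h.2
  · intro h
    refine ⟨?_, h⟩
    by_contra h'
    exact h (p.hcol k (not_lt.1 h'))

/-- The facts announced in column `k` by a list of events. -/
def facts (k : ℕ) (l : List ℕ) : List ℕ :=
  l.filterMap fun e => bif e.unpair.1 == k then some e.unpair.2 else none

theorem mem_facts {k v : ℕ} {l : List ℕ} : v ∈ facts k l ↔ ∃ e ∈ l, e.unpair.1 = k ∧ e.unpair.2 = v := by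
  simp only [facts, List.mem_filterMap]
  constructor
  · rintro ⟨e, he, h⟩
    by_cases hk : e.unpair.1 = k
    · simp [hk] at h
      exact ⟨e, he, hk, h⟩
    · have : (e.unpair.1 == k) = false := by simpa using hk
      simp [this] at h
  · rintro ⟨e, he, hk, hv⟩
    exact ⟨e, he, by simp [hk, hv]⟩

/-- Choosing new conditions in all active columns. -/
theorem exists_col (p : Cond S) {Φ : ℕ → ∀ j, (S j).C → Prop}
    (h : ∀ k j a, p.col k = some ⟨j, a⟩ → ∃ b, (S j).le a b ∧ Φ k j b) :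
    ∃ c : ℕ → Option (Σ j, (S j).C), (∀ k, p.col k = none → c k = none) ∧
      ∀ k j a, p.col k = some ⟨j, a⟩ → ∃ b, c k = some ⟨j, b⟩ ∧ (S j).le a b ∧ Φ k j b := by
  have h1 : ∀ k, ∃ o : Option (Σ j, (S j).C), (p.col k = none → o = none) ∧
      ∀ j a, p.col k = some ⟨j, a⟩ → ∃ b, o = some ⟨j, b⟩ ∧ (S j).le a b ∧ Φ k j b := by
    intro k
    rcases hk : p.col k with _ | ⟨j, a⟩
    · exact ⟨none, fun _ => rfl, fun j a h => absurd h (by simp)⟩
    · obtain ⟨b, hb1, hb2⟩ := h k j a hk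
      refine ⟨some ⟨j, b⟩, fun h => absurd h (by simp), fun j' a' h' => ?_⟩
      obtain ⟨rfl, h'⟩ := Sigma.mk.inj_iff.1 (Option.some.inj h')
      obtain rfl := eq_of_heq h'
      exact ⟨b, rfl, hb1, hb2⟩
  choose c hc1 hc2 using h1
  exact ⟨c, hc1, hc2⟩

/-- All events of the list are in a column of `A` or in a column `≥ N`. -/
def colsOK (A : List ℕ) (N : ℕ) (l : List ℕ) : Bool :=
  l.all fun e => A.any (fun k => k == e.unpair.1) || decide (N ≤ e.unpair.1)

theorem colsOK_iff {A : List ℕ} {N : ℕ} {l : List ℕ} :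
    colsOK A N l = true ↔ ∀ e ∈ l, e.unpair.1 ∈ A ∨ N ≤ e.unpair.1 := by
  simp only [colsOK, List.all_eq_true, Bool.or_eq_true, List.any_eq_true, beq_iff_eq,
    decide_eq_true_eq]
  constructor
  · intro h e he
    rcases h e he with ⟨k, hk, rfl⟩ | h
    · exact Or.inl hk
    · exact Or.inr h
  · intro h e he
    rcases h e he with h | h
    · exact Or.inl ⟨_, h, rfl⟩
    · exact Or.inr h

/-- If `τ` is a string extending `p.σ` all whose new events are in active or new columns, and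
compatible with conditions in the active columns, then it extends to a condition. -/
theorem exists_ext (p : Cond S) (τ : List ℕ) (N' : ℕ) (hN : p.N ≤ N') (hτ : p.σ <+: τ)
    (hc : ∀ e ∈ τ.drop p.σ.length, e.unpair.1 ∈ p.active ∨ p.N ≤ e.unpair.1)
    {Φ : ℕ → ∀ j, (S j).C → Prop}
    (h : ∀ k j a, p.col k = some ⟨j, a⟩ →
      ∃ b, (S j).le a b ∧ (∀ v ∈ facts k (τ.drop p.σ.length), v ∈ (S j).D b) ∧ Φ k j b) :
    ∃ q : Cond S, Ext p q ∧ q.σ = τ ∧ q.N = N' ∧ (∀ k, p.col k = none → q.col k = none) ∧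
      ∀ k j a, p.col k = some ⟨j, a⟩ → ∃ b, q.col k = some ⟨j, b⟩ ∧ (S j).le a b ∧ Φ k j b := by
  obtain ⟨c, hc1, hc2⟩ := exists_col p h
  refine ⟨⟨τ, N', c, fun k hk => hc1 k (p.hcol k (hN.trans hk))⟩, ⟨hτ, hN, ?_, ?_, ?_⟩, rfl, rfl,
    hc1, ?_⟩
  · intro k j a hk
    obtain ⟨b, hb, hab, -⟩ := hc2 k j a hk
    exact ⟨b, hb, hab⟩
  · exact fun k _ hk => hc1 k hk
  · intro e he
    rcases hc e he with h1 | h1
    · right
      rw [Cond.mem_active] at h1
      obtain ⟨⟨j, a⟩, hja⟩ := Option.ne_none_iff_exists'.1 h1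
      obtain ⟨b, hb, hab, hF, -⟩ := hc2 _ j a hja
      exact ⟨j, b, h1, hb, hF _ (mem_facts.2 ⟨e, he, rfl, rfl⟩)⟩
    · exact Or.inl h1
  · intro k j a hk
    obtain ⟨b, hb, hab, -, hΦ⟩ := hc2 k j a hk
    exact ⟨b, hb, hab, hΦ⟩

/-- Conversely the new events of an extension are in active or new columns. -/
theorem Ext.cols {p q : Cond S} (h : Ext p q) :
    ∀ e ∈ q.σ.drop p.σ.length, e.unpair.1 ∈ p.active ∨ p.N ≤ e.unpair.1 := by
  intro e he
  rcases h.ev e he with h1 | ⟨j, b, h1, -⟩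
  · exact Or.inr h1
  · exact Or.inl ((Cond.mem_active p _).2 h1)

theorem Ext.facts_mem {p q : Cond S} (h : Ext p q) {k : ℕ} {j : J} {a b : (S j).C}
    (ha : p.col k = some ⟨j, a⟩) (hb : q.col k = some ⟨j, b⟩) :
    ∀ v ∈ facts k (q.σ.drop p.σ.length), v ∈ (S j).D b := by
  intro v hv
  obtain ⟨e, he, rfl, rfl⟩ := mem_facts.1 hv
  rcases h.ev e he with h1 | ⟨j', b', h1, h2, h3⟩
  · rw [p.hcol _ h1] at ha
    exact absurd ha (by simp)
  · rw [hb] at h2
    obtain ⟨rfl, h'⟩ := Sigma.mk.inj_iff.1 (Option.some.inj h2)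
    obtain rfl := eq_of_heq h'
    exact h3

/-- The function `f` of the system attached to column `k`. -/
def Cond.fk (p : Cond S) (k : ℕ) : ℕ → List ℕ → List ℕ :=
  (p.col k).elim (fun _ _ => []) fun x => (S x.1).f

theorem Cond.fk_comp (p : Cond S) (k : ℕ) : Computable₂ (p.fk k) := by
  unfold Cond.fk
  rcases p.col k with _ | ⟨j, a⟩
  · exact (Computable.const _).to₂
  · exact (S j).f_comp

theorem Cond.fk_eq (p : Cond S) {k : ℕ} {j : J} {a : (S j).C} (h : p.col k = some ⟨j, a⟩) :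
    p.fk k = (S j).f := by
  simp [Cond.fk, h]

open Classical in
/-- Membership in the facts of the condition attached to column `k`. -/
noncomputable def Cond.mem (p : Cond S) (k v : ℕ) : Bool :=
  (p.col k).elim false fun x => decide (v ∈ (S x.1).D x.2)

theorem Cond.mem_comp (p : Cond S) (k : ℕ) : Computable (p.mem k) := by
  unfold Cond.mem
  rcases p.col k with _ | ⟨j, a⟩
  · exact Computable.const _
  · classical
    exact ((S j).D_comp a).decide

theorem Cond.mem_iff (p : Cond S) {k : ℕ} {j : J} {a : (S j).C} (h : p.col k = some ⟨j, a⟩)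
    (v : ℕ) : p.mem k v = true ↔ v ∈ (S j).D a := by
  simp [Cond.mem, h]

/-- The level of the condition attached to column `k`. -/
def Cond.levk (p : Cond S) (k : ℕ) : ℕ := (p.col k).elim 0 fun x => (S x.1).lev x.2

theorem Cond.levk_eq (p : Cond S) {k : ℕ} {j : J} {a : (S j).C} (h : p.col k = some ⟨j, a⟩) :
    p.levk k = (S j).lev a := by
  simp [Cond.levk, h]

theorem Cond.levk_bdd (p : Cond S) : ∃ n, ∀ k, p.levk k ≤ n := by
  refine ⟨(Finset.range p.N).sup p.levk, fun k => ?_⟩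
  by_cases hk : k < p.N
  · exact Finset.le_sup (f := p.levk) (Finset.mem_range.2 hk)
  · simp [Cond.levk, p.hcol k (not_lt.1 hk)]

end Pool.Agent.Helper30.SatB
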