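import Mathlib
import Pool.Agent.Helper30.SatB.Comp

/-!
# König's lemma for binary strings, and the computable list of all binary strings of length `s`
-/

set_option autoImplicit false

namespace Pool.Agent.Helper30.SatB

theorem konig (B : List Bool → Prop) (hB : ∀ r r', r <+: r' → B r' → B r)
    (hinf : ∀ s, ∃ r : List Bool, r.length = s ∧ B r) :
    ∃ ρ : ℕ → Bool, ∀ s, B ((List.range s).map ρ) := by
  let E : List Bool → Prop := fun r => ∀ s, ∃ r' : List Bool, r <+: r' ∧ s ≤ r'.length ∧ B r'
  have h0 : E [] := fun s => by
    obtain ⟨r, hr, hb⟩ := hinf s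
    exact ⟨r, List.nil_prefix, hr.ge, hb⟩
  have h1 : ∀ r, E r → ∃ b, E (r ++ [b]) := by
    intro r hr
    by_contra hcon
    push Not at hcon
    have ht := hcon true
    have hf := hcon false
    simp only [E, not_forall] at ht hf
    obtain ⟨s1, h1⟩ := ht
    obtain ⟨s2, h2⟩ := hf
    obtain ⟨r', ⟨t, rfl⟩, hl, hb⟩ := hr (max (max s1 s2) (r.length + 1))
    rcases t with _ | ⟨b, t⟩
    · simp at hl
    · have hpre : r ++ [b] <+: r ++ b :: t := ⟨t, by simp⟩
      have hlen : max s1 s2 ≤ (r ++ b :: t).length := le_trans (le_max_left _ _) hl
      cases b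
      · exact h2 ⟨_, hpre, le_trans (le_max_right _ _) hlen, hb⟩
      · exact h1 ⟨_, hpre, le_trans (le_max_left _ _) hlen, hb⟩
  choose! c hc using h1
  let seq : ℕ → List Bool := fun n => Nat.rec [] (fun _ r => r ++ [c r]) n
  have hseq : ∀ n, seq (n + 1) = seq n ++ [c (seq n)] := fun n => rfl
  have hE : ∀ n, E (seq n) := by
    intro n
    induction n with
    | zero => exact h0
    | succ n ih => rw [hseq]; exact hc _ ih
  refine ⟨fun n => c (seq n), fun s => ?_⟩
  have hs : ∀ s, (List.range s).map (fun n => c (seq n)) = seq s := by
    intro s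
    induction s with
    | zero => rfl
    | succ s ih => rw [List.range_succ, List.map_append, ih, hseq]; rfl
  rw [hs]
  obtain ⟨r', hr', -, hb⟩ := hE s 0
  exact hB _ _ hr' hb

/-- The list of all binary strings of length `s`. -/
def allBool (s : ℕ) : List (List Bool) :=
  Nat.rec [[]] (fun _ l => l.flatMap fun r => [r ++ [true], r ++ [false]]) s

theorem mem_allBool (s : ℕ) (r : List Bool) : r ∈ allBool s ↔ r.length = s := by
  induction s generalizing r with
  | zero => simp [allBool]
  | succ s ih =>
    have : allBool (s + 1) = (allBool s).flatMap fun r => [r ++ [true], r ++ [false]] := rfl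
    rw [this]
    simp only [List.mem_flatMap, List.mem_cons, List.not_mem_nil, or_false, ih]
    constructor
    · rintro ⟨r', hr', rfl | rfl⟩ <;> simp [hr']
    · intro h
      rcases List.eq_nil_or_concat r with rfl | ⟨r', b, rfl⟩
      · simp at h
      · refine ⟨r', ?_, ?_⟩
        · simpa using h
        · cases b <;> simp

theorem allBool_comp : Computable allBool := by
  have h : Computable fun s : ℕ => (Nat.rec [[]]
      (fun _ l => l.flatMap fun r => [r ++ [true], r ++ [false]]) s : List (List Bool)) := by
    refine Computable.nat_rec (f := fun s : ℕ => s) (g := fun _ => [[]])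
      (h := fun (_ : ℕ) (q : ℕ × List (List Bool)) =>
        q.2.flatMap fun r => [r ++ [true], r ++ [false]]) Computable.id (Computable.const _) ?_
    refine comp_flatMap (l := fun q : ℕ × ℕ × List (List Bool) => q.2.2)
      (g := fun _ r => [r ++ [true], r ++ [false]]) (Computable.snd.comp Computable.snd) ?_
    refine Computable.list_cons.comp ?_ (Computable.list_cons.comp ?_ (Computable.const _))
    · exact Computable.list_append.comp Computable.snd (Computable.const _)
    · exact Computable.list_append.comp Computable.snd (Computable.const _)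
  exact h

end Pool.Agent.Helper30.SatB
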