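import Mathlib
import Pool.Agent.Helper30.SatB.Force

/-!
# Event-stream forcing: no diagonally noncomputable `{0,1}`-valued function is computed
-/

set_option autoImplicit false

namespace Pool.Agent.Helper30.SatB

variable {J : Type} {S : J → CodeSystem}

/-- Decoding strings. -/
def dec (t : ℕ) : List ℕ := (Encodable.decode (α := List ℕ) t).getD []

theorem dec_comp : Computable dec :=
  Computable.option_getD Computable.decode (Computable.const _)

@[simp] theorem dec_encode (l : List ℕ) : dec (Encodable.encode l) = l := by simp [dec]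

theorem take_comp : Computable₂ (fun (n : ℕ) (l : List ℕ) => l.take n) :=
  Primrec.list_take.to_comp

theorem drop_comp : Computable₂ (fun (n : ℕ) (l : List ℕ) => l.drop n) :=
  Primrec.list_drop.to_comp

theorem eq_list_comp : Computable₂ (fun (l m : List ℕ) => decide (l = m)) :=
  Primrec.eq.decide.to_comp

theorem beq_nat_comp : Computable₂ (fun (l m : ℕ) => l == m) :=
  Primrec.beq.to_comp

theorem take_eq_iff (σ τ : List ℕ) : τ.take σ.length = σ ↔ σ <+: τ := by
  rw [List.prefix_iff_eq_take]
  exact eq_comm

theorem facts_comp (k : ℕ) : Computable (facts k) := by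
  unfold facts
  refine comp_filterMap (l := fun l : List ℕ => l)
    (g := fun _ e => bif e.unpair.1 == k then some e.unpair.2 else none) Computable.id ?_
  refine Computable.cond ?_ ?_ (Computable.const _)
  · exact beq_nat_comp.comp (Computable.fst.comp (Computable.unpair.comp Computable.snd))
      (Computable.const k)
  · exact Computable.option_some.comp
      (Computable.snd.comp (Computable.unpair.comp Computable.snd))

theorem colsOK_comp (A : List ℕ) : Computable₂ fun (N : ℕ) (l : List ℕ) => colsOK A N l := by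
  unfold colsOK
  refine comp_all (l := fun p : ℕ × List ℕ => p.2)
    (p := fun p e => A.any (fun k => k == e.unpair.1) || decide (p.1 ≤ e.unpair.1))
    Computable.snd ?_
  refine comp_or ?_ ?_
  · refine comp_any (l := fun _ : (ℕ × List ℕ) × ℕ => A) (p := fun q k => k == q.2.unpair.1)
      (Computable.const A) ?_
    exact beq_nat_comp.comp Computable.snd
      (Computable.fst.comp (Computable.unpair.comp (Computable.snd.comp Computable.fst)))
  · have h : Primrec fun q : (ℕ × List ℕ) × ℕ => decide (q.1.1 ≤ q.2.unpair.1) :=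
      (Primrec.nat_le.decide.comp (Primrec.fst.comp Primrec.fst)
        (Primrec.fst.comp (Primrec.unpair.comp Primrec.snd)))
    exact h.to_comp

/-- The test used in the search for a computable extension. -/
noncomputable def paTest (p : Cond S) (G : List ℕ → ℕ → Option ℕ) (n t : ℕ) : Bool :=
  decide ((dec t).take p.σ.length = p.σ) && colsOK p.active p.N ((dec t).drop p.σ.length) &&
    (p.active.all fun k => (p.fk k (p.levk k) (facts k ((dec t).drop p.σ.length))).all (p.mem k)) &&
    (G (dec t) n).isSome

theorem paTest_comp (p : Cond S) {G : List ℕ → ℕ → Option ℕ} (hG : Computable₂ G) :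
    Computable fun q : ℕ × ℕ => paTest p G q.1 q.2 := by
  unfold paTest
  have hd : Computable fun q : ℕ × ℕ => dec q.2 := dec_comp.comp Computable.snd
  have hdr : Computable fun q : ℕ × ℕ => (dec q.2).drop p.σ.length :=
    drop_comp.comp (Computable.const _) hd
  refine comp_and (comp_and (comp_and ?_ ?_) ?_) ?_
  · exact eq_list_comp.comp (take_comp.comp (Computable.const _) hd) (Computable.const _)
  · exact (colsOK_comp p.active).comp (Computable.const p.N) hdr
  · refine comp_all_const p.active (p := fun k (q : ℕ × ℕ) =>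
      (p.fk k (p.levk k) (facts k ((dec q.2).drop p.σ.length))).all (p.mem k)) fun k _ => ?_
    refine comp_all ((p.fk_comp k).comp (Computable.const _) ((facts_comp k).comp hdr)) ?_
    exact (p.mem_comp k).comp Computable.snd
  · exact (Primrec.option_isSome.to_comp).comp (hG.comp hd Computable.fst)

/-- Compatible strings extend to conditions. -/
theorem paTest_ext (p : Cond S) {G : List ℕ → ℕ → Option ℕ} {n t : ℕ}
    (h : paTest p G n t = true) : ∃ q : Cond S, Ext p q ∧ q.σ = dec t := by
  simp only [paTest, Bool.and_eq_true, decide_eq_true_eq, take_eq_iff, colsOK_iff, List.all_eq_true] at h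
  obtain ⟨⟨⟨h1, h2⟩, h3⟩, -⟩ := h
  have h5 : ∀ k j a, p.col k = some ⟨j, a⟩ →
      ∃ b, (S j).le a b ∧ (∀ v ∈ facts k ((dec t).drop p.σ.length), v ∈ (S j).D b) ∧ True := by
    intro k j a hk
    have h4 := h3 k ((p.mem_active k).2 (by simp [hk]))
    rw [p.fk_eq hk, p.levk_eq hk] at h4
    obtain ⟨c, hc, hF⟩ := ((S j).f_spec a (facts k ((dec t).drop p.σ.length))).2 fun v hv =>
      (p.mem_iff hk v).1 (h4 v hv)
    exact ⟨c, hc, hF, trivial⟩
  obtain ⟨q, hq, hσ, -⟩ := exists_ext p (dec t) p.N le_rfl h1 h2 (Φ := fun _ _ _ => True) h5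
  exact ⟨q, hq, hσ⟩

theorem paTest_of_ext {p q : Cond S} (hq : Ext p q) {G : List ℕ → ℕ → Option ℕ} {n : ℕ}
    (h : (G q.σ n).isSome) : paTest p G n (Encodable.encode q.σ) = true := by
  simp only [paTest, Bool.and_eq_true, decide_eq_true_eq, take_eq_iff, colsOK_iff, List.all_eq_true, dec_encode]
  refine ⟨⟨⟨hq.pre, hq.cols⟩, fun k hk => ?_⟩, h⟩
  rw [Cond.mem_active] at hk
  obtain ⟨⟨j, a⟩, hja⟩ := Option.ne_none_iff_exists'.1 hk
  obtain ⟨b, hb, hab⟩ := hq.act k j a hja
  rw [p.fk_eq hja, p.levk_eq hja]
  intro v hv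
  rw [p.mem_iff hja]
  exact ((S j).f_spec a _).1 ⟨b, hab, hq.facts_mem hja hb⟩ v hv

open Nat.Partrec (Code)

/-- `y` is a value at `n` which violates the defining property of a `{0,1}`-valued diagonally
noncomputable function. -/
def BadVal (n y : ℕ) : Prop := 2 ≤ y ∨ y ∈ Code.eval (Denumerable.ofNat Code n) n

/-- The dense set ensuring that the functional `G` does not give a `{0,1}`-valued diagonally
noncomputable function. -/
def paSet (S : J → CodeSystem) (G : List ℕ → ℕ → Option ℕ) : Set (Cond S) :=
  {p | (∃ n y, G p.σ n = some y ∧ BadVal n y) ∨ ∃ n, ∀ q, Ext p q → G q.σ n = none}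

theorem paSet_dense {G : List ℕ → ℕ → Option ℕ} (hG : Computable₂ G) (p : Cond S) :
    ∃ q, Ext p q ∧ q ∈ paSet S G := by
  by_contra hcon
  have h1 : ∀ q, Ext p q → ∀ n y, G q.σ n = some y → ¬ BadVal n y := by
    intro q hq n y hy hb
    exact hcon ⟨q, hq, Or.inl ⟨n, y, hy, hb⟩⟩
  have h2 : ∀ n, ∃ q, Ext p q ∧ (G q.σ n).isSome := by
    intro n
    by_contra h
    refine hcon ⟨p, Ext.refl p, Or.inr ⟨n, fun q hq => ?_⟩⟩
    by_contra h3
    exact h ⟨q, hq, Option.isSome_iff_ne_none.2 h3⟩
  have h3 : ∀ n, ∃ t, paTest p G n t = true := by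
    intro n
    obtain ⟨q, hq, hs⟩ := h2 n
    exact ⟨_, paTest_of_ext hq hs⟩
  have h4 : Computable fun n => Nat.find (h3 n) :=
    Computable.find (P := fun n t => paTest p G n t = true)
      ((paTest_comp p hG).of_eq (fun q => by simp)).computablePred h3
  have h5 : Computable fun n => (G (dec (Nat.find (h3 n))) n).getD 0 :=
    Computable.option_getD (hG.comp (dec_comp.comp h4) Computable.id) (Computable.const 0)
  obtain ⟨c, hc⟩ := Code.exists_code.1 (Partrec.nat_iff.1 h5.partrec)
  set n := Encodable.encode c with hn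
  have key : ∀ t, paTest p G n t = true → (G (dec t) n).getD 0 ∉ Code.eval c n := by
    intro t h6 h9
    obtain ⟨q, hq, hσ⟩ := paTest_ext p h6
    have h7 : (G (dec t) n).isSome := by
      simp only [paTest, Bool.and_eq_true] at h6
      exact h6.2
    obtain ⟨y, hy⟩ := Option.isSome_iff_exists.1 h7
    refine h1 q hq n y (by rw [hσ]; exact hy) (Or.inr ?_)
    have h8 : Denumerable.ofNat Code n = c := by rw [hn, Denumerable.ofNat_encode]
    rw [h8]
    rw [hy] at h9
    exact h9
  refine key _ (Nat.find_spec (h3 n)) ?_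
  rw [hc]
  simp only [PFun.coe_val, Part.mem_some_iff]

end Pool.Agent.Helper30.SatB
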