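import Mathlib
import Pool.Agent.Helper30.SatB.NonPA
import Pool.Agent.Helper30.SatB.Konig

/-!
# Event-stream forcing: no function dominating all computable functions is computed
-/

set_option autoImplicit false

namespace Pool.Agent.Helper30.SatB

variable {J : Type} {S : J → CodeSystem}

theorem comp_any_const {α ι : Type} [Primcodable α] (l : List ι) {p : ι → α → Bool}
    (hp : ∀ i ∈ l, Computable (p i)) : Computable fun a => l.any fun i => p i a := by
  induction l with
  | nil => exact Computable.const false
  | cons i l ih =>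
    simp only [List.any_cons]
    exact comp_or (hp i (by simp)) (ih fun j hj => hp j (by simp [hj]))

/-- The numbers `v` such that the entry of `r` at the index `(k, v)` is `b`. -/
def sel (b : Bool) (k : ℕ) (r : List Bool) : List ℕ :=
  (List.range r.length).filterMap fun i =>
    bif (i.unpair.1 == k) && decide (r[i]? = some b) then some i.unpair.2 else none

theorem mem_sel {b : Bool} {k v : ℕ} {r : List Bool} :
    v ∈ sel b k r ↔ r[Nat.pair k v]? = some b := by
  simp only [sel, List.mem_filterMap, List.mem_range]
  constructor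
  · rintro ⟨i, hi, h⟩
    by_cases h1 : i.unpair.1 = k
    · by_cases h2 : r[i]? = some b
      · simp only [h1, h2, BEq.rfl, decide_true, Bool.and_self, cond_true, Option.some.injEq] at h
        rw [← h1, ← h, Nat.pair_unpair]
        exact h2
      · simp [h2] at h
    · have : (i.unpair.1 == k) = false := by simpa using h1
      simp [this] at h
  · intro h
    refine ⟨Nat.pair k v, ?_, by simp [h]⟩
    exact (List.getElem?_eq_some_iff.1 h).1

theorem getElem?_decide_comp (b : Bool) :
    Computable₂ fun (r : List Bool) (i : ℕ) => decide (r[i]? = some b) := by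
  have h : Primrec fun q : List Bool × ℕ => decide (q.1[q.2]? = some b) :=
    Primrec.eq.decide.comp (Primrec.list_getElem?.comp Primrec.fst Primrec.snd) (Primrec.const _)
  exact h.to_comp

theorem sel_comp (b : Bool) (k : ℕ) : Computable (sel b k) := by
  unfold sel
  refine comp_filterMap (l := fun r : List Bool => List.range r.length)
    (g := fun r i => bif (i.unpair.1 == k) && decide (r[i]? = some b) then some i.unpair.2
      else none) (comp_range.comp Computable.list_length) ?_
  refine Computable.cond (comp_and ?_ ?_) ?_ (Computable.const _)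
  · exact beq_nat_comp.comp (Computable.fst.comp (Computable.unpair.comp Computable.snd))
      (Computable.const k)
  · exact getElem?_decide_comp b
  · exact Computable.option_some.comp
      (Computable.snd.comp (Computable.unpair.comp Computable.snd))

/-- The test of the system attached to column `k`. -/
def Cond.testk (p : Cond S) (k n : ℕ) (P Q : List ℕ) : Bool :=
  (p.col k).elim true fun x => (S x.1).test x.2 n P Q

theorem Cond.testk_comp (p : Cond S) (k : ℕ) :
    Computable fun q : ℕ × List ℕ × List ℕ => p.testk k q.1 q.2.1 q.2.2 := by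
  unfold Cond.testk
  rcases p.col k with _ | ⟨j, a⟩
  · exact Computable.const _
  · exact (S j).test_comp a

theorem Cond.testk_eq (p : Cond S) {k : ℕ} {j : J} {a : (S j).C} (h : p.col k = some ⟨j, a⟩)
    (n : ℕ) (P Q : List ℕ) : p.testk k n P Q = (S j).test a n P Q := by
  simp [Cond.testk, h]

/-- The pattern `r` is realized by conditions of level `n`. -/
def testVec (p : Cond S) (n : ℕ) (r : List Bool) : Bool :=
  p.active.all fun k => p.testk k n (sel true k r) (sel false k r)

theorem testVec_comp (p : Cond S) :
    Computable₂ fun (n : ℕ) (r : List Bool) => testVec p n r := by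
  unfold testVec
  refine comp_all_const p.active (p := fun k (q : ℕ × List Bool) =>
    p.testk k q.1 (sel true k q.2) (sel false k q.2)) fun k _ => ?_
  exact (p.testk_comp k).comp (Computable.pair Computable.fst
    (Computable.pair ((sel_comp true k).comp Computable.snd)
      ((sel_comp false k).comp Computable.snd)))

/-- The patterns `r` at level `n` for which either `t` is not a compatible extension or there is a
good further extension which gives `G` a value at `n`. -/
def good (p : Cond S) (G : List ℕ → ℕ → Option ℕ) (n t : ℕ) (r : List Bool) : Bool :=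
  !decide ((dec t).take p.σ.length = p.σ) ||
  (!colsOK p.active p.N ((dec t).drop p.σ.length) ||
  (p.active.any (fun k => (p.fk k n (facts k ((dec t).drop p.σ.length))).any fun v =>
    decide (r[Nat.pair k v]? = some false)) ||
  (List.range r.length).any fun t' =>
    decide ((dec t').take (dec t).length = dec t) &&
    ((G (dec t') n).isSome &&
    (colsOK p.active (max n p.N) ((dec t').drop (dec t).length) &&
    p.active.all fun k => (p.fk k n (facts k ((dec t').drop (dec t).length))).all fun v =>
      decide (r[Nat.pair k v]? = some true)))))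

theorem good_comp (p : Cond S) {G : List ℕ → ℕ → Option ℕ} (hG : Computable₂ G) :
    Computable₂ fun (q : ℕ × ℕ) (r : List Bool) => good p G q.1 q.2 r := by
  unfold good
  change Computable fun q : (ℕ × ℕ) × List Bool => _
  have hn : Computable fun q : (ℕ × ℕ) × List Bool => q.1.1 := Computable.fst.comp Computable.fst
  have hd : Computable fun q : (ℕ × ℕ) × List Bool => dec q.1.2 :=
    dec_comp.comp (Computable.snd.comp Computable.fst)
  have hdr : Computable fun q : (ℕ × ℕ) × List Bool => (dec q.1.2).drop p.σ.length :=
    drop_comp.comp (Computable.const _) hd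
  have hpair : ∀ k : ℕ, Computable fun v : ℕ => Nat.pair k v := fun k =>
    (Primrec₂.natPair.comp (Primrec.const k) Primrec.id).to_comp
  refine comp_or (comp_not ?_) (comp_or (comp_not ?_) (comp_or ?_ ?_))
  · exact eq_list_comp.comp (take_comp.comp (Computable.const _) hd) (Computable.const _)
  · exact (colsOK_comp p.active).comp (Computable.const p.N) hdr
  · refine comp_any_const p.active (p := fun k (q : (ℕ × ℕ) × List Bool) =>
      (p.fk k q.1.1 (facts k ((dec q.1.2).drop p.σ.length))).any fun v =>
        decide (q.2[Nat.pair k v]? = some false)) fun k _ => ?_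
    refine comp_any ((p.fk_comp k).comp hn ((facts_comp k).comp hdr)) ?_
    have h1 : Computable fun q : ((ℕ × ℕ) × List Bool) × ℕ => q.1.2 :=
      Computable.snd.comp Computable.fst
    have h2 : Computable fun q : ((ℕ × ℕ) × List Bool) × ℕ => Nat.pair k q.2 :=
      (hpair k).comp Computable.snd
    exact (getElem?_decide_comp false).comp h1 h2
  · refine comp_any (l := fun q : (ℕ × ℕ) × List Bool => List.range q.2.length)
      (p := fun q t' => decide ((dec t').take (dec q.1.2).length = dec q.1.2) &&
        ((G (dec t') q.1.1).isSome &&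
        (colsOK p.active (max q.1.1 p.N) ((dec t').drop (dec q.1.2).length) &&
        p.active.all fun k => (p.fk k q.1.1 (facts k ((dec t').drop (dec q.1.2).length))).all
          fun v => decide (q.2[Nat.pair k v]? = some true))))
      (comp_range.comp (Computable.list_length.comp Computable.snd)) ?_
    have hn' : Computable fun q : ((ℕ × ℕ) × List Bool) × ℕ => q.1.1.1 := hn.comp Computable.fst
    have hd' : Computable fun q : ((ℕ × ℕ) × List Bool) × ℕ => dec q.1.1.2 :=
      hd.comp Computable.fst
    have hd2 : Computable fun q : ((ℕ × ℕ) × List Bool) × ℕ => dec q.2 :=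
      dec_comp.comp Computable.snd
    have hdr' : Computable fun q : ((ℕ × ℕ) × List Bool) × ℕ =>
        (dec q.2).drop (dec q.1.1.2).length :=
      drop_comp.comp (Computable.list_length.comp hd') hd2
    refine comp_and ?_ (comp_and ?_ (comp_and ?_ ?_))
    · exact eq_list_comp.comp (take_comp.comp (Computable.list_length.comp hd') hd2) hd'
    · have h1 : Computable fun q : ((ℕ × ℕ) × List Bool) × ℕ => G (dec q.2) q.1.1.1 :=
        hG.comp hd2 hn'
      exact (Primrec.option_isSome.to_comp).comp h1
    · have h1 : Computable fun q : ((ℕ × ℕ) × List Bool) × ℕ => max q.1.1.1 p.N :=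
        Primrec.nat_max.to_comp.comp hn' (Computable.const p.N)
      exact (colsOK_comp p.active).comp h1 hdr'
    · refine comp_all_const p.active (p := fun k (q : ((ℕ × ℕ) × List Bool) × ℕ) =>
        (p.fk k q.1.1.1 (facts k ((dec q.2).drop (dec q.1.1.2).length))).all fun v =>
          decide (q.1.2[Nat.pair k v]? = some true)) fun k _ => ?_
      refine comp_all ((p.fk_comp k).comp hn' ((facts_comp k).comp hdr')) ?_
      have h1 : Computable fun q : (((ℕ × ℕ) × List Bool) × ℕ) × ℕ => q.1.1.2 :=
        Computable.snd.comp (Computable.fst.comp Computable.fst)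
      have h2 : Computable fun q : (((ℕ × ℕ) × List Bool) × ℕ) × ℕ => Nat.pair k q.2 :=
        (hpair k).comp Computable.snd
      exact (getElem?_decide_comp true).comp h1 h2

section

attribute [local irreducible] good testVec

/-- All realized patterns of length `s` are good for all strings with code `< n`. -/
def cover (p : Cond S) (G : List ℕ → ℕ → Option ℕ) (n s : ℕ) : Bool :=
  (List.range n).all fun t => (allBool s).all fun r => !testVec p n r || good p G n t r

theorem cover_comp (p : Cond S) {G : List ℕ → ℕ → Option ℕ} (hG : Computable₂ G) :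
    Computable fun q : ℕ × ℕ => cover p G q.1 q.2 := by
  unfold cover
  refine comp_all (l := fun q : ℕ × ℕ => List.range q.1)
    (p := fun q t => (allBool q.2).all fun r => !testVec p q.1 r || good p G q.1 t r)
    (comp_range.comp Computable.fst) ?_
  refine comp_all (l := fun q : (ℕ × ℕ) × ℕ => allBool q.1.2)
    (p := fun q r => !testVec p q.1.1 r || good p G q.1.1 q.2 r)
    (allBool_comp.comp (Computable.snd.comp Computable.fst)) ?_
  refine comp_or (comp_not ?_) ?_
  · have h1 : Computable fun q : ((ℕ × ℕ) × ℕ) × List Bool => q.1.1.1 :=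
      Computable.fst.comp (Computable.fst.comp Computable.fst)
    have h2 : Computable fun q : ((ℕ × ℕ) × ℕ) × List Bool => q.2 := Computable.snd
    have h3 := (testVec_comp p).comp h1 h2
    exact h3
  · have h1 : Computable fun q : ((ℕ × ℕ) × ℕ) × List Bool => (q.1.1.1, q.1.2) :=
      Computable.pair (Computable.fst.comp (Computable.fst.comp Computable.fst))
        (Computable.snd.comp Computable.fst)
    have h2 : Computable fun q : ((ℕ × ℕ) × ℕ) × List Bool => q.2 := Computable.snd
    have h3 := (good_comp p hG).comp h1 h2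
    exact h3

end

theorem testVec_anti (p : Cond S) {n : ℕ} {r r' : List Bool} (h : r <+: r')
    (h' : testVec p n r' = true) : testVec p n r = true := by
  simp only [testVec, List.all_eq_true] at h' ⊢
  intro k hk
  have h2 := h' k hk
  rw [Cond.mem_active] at hk
  obtain ⟨⟨j, a⟩, hja⟩ := Option.ne_none_iff_exists'.1 hk
  rw [p.testk_eq hja, (S j).test_spec] at h2 ⊢
  obtain ⟨b, hab, hb, hP, hQ⟩ := h2
  obtain ⟨ρ, rfl⟩ := h
  refine ⟨b, hab, hb, fun v hv => hP v ?_, fun v hv => hQ v ?_⟩ <;>
  · rw [mem_sel] at hv ⊢
    rw [List.getElem?_append_left (List.getElem?_eq_some_iff.1 hv).1]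
    exact hv

theorem good_mono (p : Cond S) {G : List ℕ → ℕ → Option ℕ} {n t : ℕ} {r r' : List Bool}
    (h : r <+: r') (hg : good p G n t r = true) : good p G n t r' = true := by
  have hget : ∀ (i : ℕ) (b : Bool), r[i]? = some b → r'[i]? = some b := by
    intro i b hi
    obtain ⟨ρ, rfl⟩ := h
    rw [List.getElem?_append_left (List.getElem?_eq_some_iff.1 hi).1]
    exact hi
  simp only [good, Bool.or_eq_true, Bool.and_eq_true, List.any_eq_true, List.all_eq_true,
    decide_eq_true_eq, List.mem_range] at hg ⊢
  rcases hg with hg | hg | ⟨k, hk, v, hv, hg⟩ | ⟨t', ht', h1, h2, h3, h4⟩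
  · exact Or.inl hg
  · exact Or.inr (Or.inl hg)
  · exact Or.inr (Or.inr (Or.inl ⟨k, hk, v, hv, hget _ _ hg⟩))
  · exact Or.inr (Or.inr (Or.inr ⟨t', lt_of_lt_of_le ht' h.length_le, h1, h2, h3,
      fun k hk v hv => hget _ _ (h4 k hk v hv)⟩))

/-- Every extension of `p` has extensions making `G` defined at any given argument. -/
def Total (p : Cond S) (G : List ℕ → ℕ → Option ℕ) : Prop :=
  ∀ q, Ext p q → ∀ n, ∃ r, Ext q r ∧ (G r.σ n).isSome

theorem range_map_getElem? (ρ : ℕ → Bool) (s i : ℕ) (h : i < s) :
    ((List.range s).map ρ)[i]? = some (ρ i) := by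
  simp [h]

theorem exists_good (p : Cond S) {G : List ℕ → ℕ → Option ℕ} (H : Total p G) (n t : ℕ) :
    ∃ s, ∀ r : List Bool, r.length = s → testVec p n r = true → good p G n t r = true := by
  by_contra hcon
  push Not at hcon
  obtain ⟨ρ, hρ⟩ := konig (fun r => testVec p n r = true ∧ ¬ good p G n t r = true)
    (fun r r' h h' => ⟨testVec_anti p h h'.1, fun hg => h'.2 (good_mono p h hg)⟩)
    (fun s => by obtain ⟨r, h1, h2, h3⟩ := hcon s; exact ⟨r, h1, h2, h3⟩)
  set R : ℕ → Set ℕ := fun k => {v | ρ (Nat.pair k v) = true} with hR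
  -- the conditions realizing the pattern
  have hb : ∀ k j a, p.col k = some ⟨j, a⟩ →
      ∃ b, (S j).le a b ∧ (S j).lev b = n ∧ (S j).D b = R k := by
    intro k j a hk
    refine (S j).sat a n (R k) fun P Q hP hQ => ?_
    obtain ⟨s, hs⟩ : ∃ s, ∀ v, v ∈ P ∨ v ∈ Q → Nat.pair k v < s := by
      refine ⟨((P ++ Q).map fun v => Nat.pair k v).sum + 1, fun v hv => ?_⟩
      have : Nat.pair k v ∈ (P ++ Q).map fun v => Nat.pair k v :=
        List.mem_map.2 ⟨v, List.mem_append.2 hv, rfl⟩
      exact Nat.lt_succ_of_le (List.le_sum_of_mem this)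
    have h1 := (hρ s).1
    simp only [testVec, List.all_eq_true] at h1
    have h2 := h1 k ((p.mem_active k).2 (by simp [hk]))
    rw [p.testk_eq hk, (S j).test_spec] at h2
    rw [(S j).test_spec]
    obtain ⟨b, hab, hb, hP', hQ'⟩ := h2
    refine ⟨b, hab, hb, fun v hv => hP' v ?_, fun v hv => hQ' v ?_⟩
    · rw [mem_sel, range_map_getElem? _ _ _ (hs v (Or.inl hv))]
      exact congrArg some (hP v hv)
    · rw [mem_sel, range_map_getElem? _ _ _ (hs v (Or.inr hv))]
      have := hQ v hv
      simp only [hR, Set.mem_ofPred_eq, Bool.not_eq_true] at this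
      rw [this]
  -- `t` is compatible
  have hng : ∀ s, ¬ good p G n t ((List.range s).map ρ) = true := fun s => (hρ s).2
  have g1 : p.σ <+: dec t := by
    have := hng 0
    simp only [good, Bool.or_eq_true, not_or] at this
    have h := this.1
    simpa [take_eq_iff] using h
  have g2 : ∀ e ∈ (dec t).drop p.σ.length, e.unpair.1 ∈ p.active ∨ p.N ≤ e.unpair.1 := by
    have := hng 0
    simp only [good, Bool.or_eq_true, not_or] at this
    have h := this.2.1
    rw [← colsOK_iff]
    simpa using h
  have g3 : ∀ k j a, p.col k = some ⟨j, a⟩ → ∀ v ∈ (S j).f n (facts k ((dec t).drop p.σ.length)),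
      ρ (Nat.pair k v) = true := by
    intro k j a hk v hv
    by_contra hf
    rw [Bool.not_eq_true] at hf
    refine hng (Nat.pair k v + 1) ?_
    simp only [good, Bool.or_eq_true, List.any_eq_true]
    refine Or.inr (Or.inr (Or.inl ⟨k, (p.mem_active k).2 (by simp [hk]), v, ?_, ?_⟩))
    · rw [p.fk_eq hk]; exact hv
    · rw [range_map_getElem? _ _ _ (Nat.lt_succ_self _), hf]
      simp
  have hc : ∀ k j a, p.col k = some ⟨j, a⟩ → ∃ c, (S j).le a c ∧
      (∀ v ∈ facts k ((dec t).drop p.σ.length), v ∈ (S j).D c) ∧
      ∃ b, (S j).lev b = n ∧ (S j).D b = R k ∧ (S j).le b c := by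
    intro k j a hk
    obtain ⟨b, hab, hbn, hbR⟩ := hb k j a hk
    obtain ⟨c, hbc, hF⟩ := ((S j).f_spec b (facts k ((dec t).drop p.σ.length))).2 (by
      intro v hv
      rw [hbn] at hv
      rw [hbR]
      exact g3 k j a hk v hv)
    exact ⟨c, (S j).le_trans _ _ _ hab hbc, hF, b, hbn, hbR, hbc⟩
  obtain ⟨q, hpq, hqσ, hqN, hqnone, hqcol⟩ := exists_ext p (dec t) (max n p.N) (le_max_right _ _)
    g1 g2 (Φ := fun k j c => ∃ b, (S j).lev b = n ∧ (S j).D b = R k ∧ (S j).le b c) hc
  obtain ⟨r, hqr, hrG⟩ := H q hpq n
  -- the witness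
  have w1 : ∀ k j a, p.col k = some ⟨j, a⟩ →
      ∀ v ∈ (S j).f n (facts k (r.σ.drop (dec t).length)), ρ (Nat.pair k v) = true := by
    intro k j a hk v hv
    obtain ⟨c, hc, -, b, hbn, hbR, hbc⟩ := hqcol k j a hk
    obtain ⟨d, hd, hcd⟩ := hqr.act k j c hc
    have h1 := ((S j).f_spec b (facts k (r.σ.drop (dec t).length))).1
      ⟨d, (S j).le_trans _ _ _ hbc hcd, by
        have := hqr.facts_mem hc hd
        rwa [hqσ] at this⟩ v (by rw [hbn]; exact hv)
    rw [hbR] at h1
    exact h1
  obtain ⟨s, hs1, hs2⟩ : ∃ s, Encodable.encode r.σ < s ∧ ∀ k ∈ p.active,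
      ∀ v ∈ p.fk k n (facts k (r.σ.drop (dec t).length)), Nat.pair k v < s := by
    refine ⟨Encodable.encode r.σ + (p.active.flatMap fun k =>
      (p.fk k n (facts k (r.σ.drop (dec t).length))).map fun v => Nat.pair k v).sum + 1,
      by omega, fun k hk v hv => ?_⟩
    have : Nat.pair k v ∈ p.active.flatMap fun k =>
        (p.fk k n (facts k (r.σ.drop (dec t).length))).map fun v => Nat.pair k v :=
      List.mem_flatMap.2 ⟨k, hk, List.mem_map.2 ⟨v, hv, rfl⟩⟩
    have := List.le_sum_of_mem this
    omega
  refine hng s ?_
  simp only [good, Bool.or_eq_true, List.any_eq_true]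
  refine Or.inr (Or.inr (Or.inr ⟨Encodable.encode r.σ, ?_, ?_⟩))
  · simpa using hs1
  · simp only [Bool.and_eq_true, decide_eq_true_eq, take_eq_iff, dec_encode, colsOK_iff,
      List.all_eq_true]
    refine ⟨by rw [← hqσ]; exact hqr.pre, hrG, ?_, ?_⟩
    · intro e he
      rcases hqr.cols e (by rw [hqσ]; exact he) with h | h
      · left
        rw [Cond.mem_active] at h ⊢
        exact fun hp => h (hqnone _ hp)
      · right
        rw [← hqN]
        exact h
    · intro k hk v hv
      rw [range_map_getElem? _ _ _ (hs2 k hk v hv)]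
      rw [Cond.mem_active] at hk
      obtain ⟨⟨j, a⟩, hja⟩ := Option.ne_none_iff_exists'.1 hk
      rw [p.fk_eq hja] at hv
      exact congrArg some (w1 k j a hja v hv)

theorem exists_cover (p : Cond S) {G : List ℕ → ℕ → Option ℕ} (H : Total p G) (n : ℕ) :
    ∃ s, cover p G n s = true := by
  choose s hs using fun t => exists_good p H n t
  refine ⟨(Finset.range n).sup s, ?_⟩
  simp only [cover, List.all_eq_true, List.mem_range, mem_allBool]
  intro t ht r hr
  have hst : s t ≤ r.length := by
    rw [hr]
    exact Finset.le_sup (f := s) (Finset.mem_range.2 ht)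
  by_cases hv : testVec p n r = true
  · have h1 := hs t (r.take (s t)) (by simp [hst]) (testVec_anti p (List.take_prefix _ _) hv)
    rw [good_mono p (List.take_prefix _ _) h1, Bool.or_true]
  · rw [Bool.not_eq_true] at hv
    rw [hv]
    rfl

/-- A computable function bounding, infinitely often, the values of `G` on suitable extensions. -/
theorem exists_bound (p : Cond S) {G : List ℕ → ℕ → Option ℕ} (hG : Computable₂ G)
    (H : Total p G) : ∃ h : ℕ → ℕ, Computable h ∧ ∀ q, Ext p q → ∀ m, ∃ r, Ext q r ∧
      ∃ n, m ≤ n ∧ ∃ y, y ≤ h n ∧ G r.σ n = some y := by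
  have hs : Computable fun n => Nat.find (exists_cover p H n) :=
    Computable.find (P := fun n s => cover p G n s = true)
      ((cover_comp p hG).of_eq (fun q => by simp)).computablePred (exists_cover p H)
  refine ⟨fun n => (List.range (Nat.find (exists_cover p H n))).foldl
    (fun x t => x + (G (dec t) n).getD 0) 0, ?_, ?_⟩
  · refine comp_foldl (f := fun n => List.range (Nat.find (exists_cover p H n)))
      (g := fun _ => 0) (h := fun n (q : ℕ × ℕ) => q.1 + (G (dec q.2) n).getD 0)
      (comp_range.comp hs) (Computable.const _) ?_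
    have h1 : Computable fun q : ℕ × (ℕ × ℕ) => dec q.2.2 :=
      dec_comp.comp (Computable.snd.comp Computable.snd)
    have h2 : Computable fun q : ℕ × (ℕ × ℕ) => (G (dec q.2.2) q.1).getD 0 :=
      Computable.option_getD (hG.comp h1 Computable.fst) (Computable.const 0)
    have h3 : Computable fun q : ℕ × (ℕ × ℕ) => q.2.1 := Computable.fst.comp Computable.snd
    exact (Primrec.nat_add.to_comp).comp h3 h2
  · intro q hpq m
    obtain ⟨n0, hn0⟩ := q.levk_bdd
    obtain ⟨n, hn⟩ : ∃ n, n = max m (max (Encodable.encode q.σ + 1) (max q.N n0)) := ⟨_, rfl⟩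
    have hnm : m ≤ n := by omega
    have hnσ : Encodable.encode q.σ < n := by omega
    have hnN : q.N ≤ n := by omega
    have hn0' : n0 ≤ n := by omega
    have hcov := Nat.find_spec (exists_cover p H n)
    obtain ⟨s, hs'⟩ : ∃ s, s = Nat.find (exists_cover p H n) := ⟨_, rfl⟩
    rw [← hs'] at hcov
    -- raise the conditions to level `n`
    obtain ⟨c, hc1, hc2⟩ := exists_col q (Φ := fun _ j b => (S j).lev b = n) (by
      intro k j a hk
      refine (S j).ext a n ?_
      rw [← q.levk_eq hk]
      exact (hn0 k).trans hn0')
    classical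
    set β : ℕ → Bool := fun i =>
      (c i.unpair.1).elim false fun x => decide (i.unpair.2 ∈ (S x.1).D x.2) with hβ
    have hβ' : ∀ k j b, c k = some ⟨j, b⟩ → ∀ v, β (Nat.pair k v) = true ↔ v ∈ (S j).D b := by
      intro k j b hk v
      simp [hβ, hk]
    set r : List Bool := (List.range s).map β with hr
    have hrl : r.length = s := by simp [hr]
    have htv : testVec p n r = true := by
      simp only [testVec, List.all_eq_true]
      intro k hk
      rw [Cond.mem_active] at hk
      obtain ⟨⟨j, a⟩, hja⟩ := Option.ne_none_iff_exists'.1 hk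
      obtain ⟨a', ha', haa'⟩ := hpq.act k j a hja
      obtain ⟨b, hb, hab, hbn⟩ := hc2 k j a' ha'
      rw [p.testk_eq hja, (S j).test_spec]
      refine ⟨b, (S j).le_trans _ _ _ haa' hab, hbn, fun v hv => ?_, fun v hv => ?_⟩
      · rw [mem_sel] at hv
        obtain ⟨hlt, -⟩ := List.getElem?_eq_some_iff.1 hv
        rw [hrl] at hlt
        rw [hr, range_map_getElem? _ _ _ hlt, Option.some.injEq] at hv
        exact (hβ' k j b hb v).1 hv
      · rw [mem_sel] at hv
        obtain ⟨hlt, -⟩ := List.getElem?_eq_some_iff.1 hv
        rw [hrl] at hlt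
        rw [hr, range_map_getElem? _ _ _ hlt, Option.some.injEq] at hv
        rw [← hβ' k j b hb v, hv]
        simp
    have hgood : good p G n (Encodable.encode q.σ) r = true := by
      simp only [cover, List.all_eq_true, List.mem_range, mem_allBool] at hcov
      have := hcov _ hnσ r hrl
      rw [htv] at this
      simpa using this
    simp only [good, Bool.or_eq_true, Bool.and_eq_true, List.any_eq_true, List.all_eq_true,
      decide_eq_true_eq, List.mem_range, dec_encode, take_eq_iff, colsOK_iff, Bool.not_eq_true',
      decide_eq_false_iff_not] at hgood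
    rcases hgood with hg | hg | ⟨k, hk, v, hv, hg⟩ | ⟨t', ht', h1, h2, h3, h4⟩
    · exact absurd hpq.pre hg
    · rw [Bool.eq_false_iff, ne_eq, colsOK_iff] at hg
      exact absurd hpq.cols hg
    · exfalso
      rw [Cond.mem_active] at hk
      obtain ⟨⟨j, a⟩, hja⟩ := Option.ne_none_iff_exists'.1 hk
      obtain ⟨a', ha', haa'⟩ := hpq.act k j a hja
      obtain ⟨b, hb, hab, hbn⟩ := hc2 k j a' ha'
      rw [p.fk_eq hja] at hv
      have h5 := ((S j).f_spec b (facts k (q.σ.drop p.σ.length))).1
        ⟨b, (S j).le_refl b, fun w hw =>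
          (S j).D_mono _ _ hab (hpq.facts_mem hja ha' w hw)⟩ v (by rw [hbn]; exact hv)
      rw [← hβ' k j b hb] at h5
      obtain ⟨hlt, -⟩ := List.getElem?_eq_some_iff.1 hg
      rw [hrl] at hlt
      rw [hr, range_map_getElem? _ _ _ hlt, Option.some.injEq, h5] at hg
      exact absurd hg (by simp)
    · rw [hrl] at ht'
      -- the further extension
      have hcols : ∀ e ∈ (dec t').drop q.σ.length, e.unpair.1 ∈ q.active ∨ q.N ≤ e.unpair.1 := by
        intro e he
        rcases h3 e he with h | h
        · left
          rw [Cond.mem_active] at h ⊢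
          obtain ⟨⟨j, a⟩, hja⟩ := Option.ne_none_iff_exists'.1 h
          obtain ⟨b, hb, -⟩ := hpq.act _ j a hja
          rw [hb]
          simp
        · exact Or.inr (hnN.trans (le_trans (le_max_left _ _) h))
      obtain ⟨r', hr', hσ, -⟩ := exists_ext q (dec t') q.N le_rfl h1 hcols
        (Φ := fun _ _ _ => True) (by
          intro k j a' ha'
          by_cases hk : p.col k = none
          · refine ⟨a', (S j).le_refl a', fun v hv => ?_, trivial⟩
            exfalso
            obtain ⟨e, he, rfl, rfl⟩ := mem_facts.1 hv
            rcases h3 e he with h | h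
            · exact (Cond.mem_active p _).1 h hk
            · rw [q.hcol _ (hnN.trans (le_trans (le_max_left _ _) h))] at ha'
              exact absurd ha' (by simp)
          · obtain ⟨⟨j', a⟩, hja⟩ := Option.ne_none_iff_exists'.1 hk
            obtain ⟨a'', ha'', haa'⟩ := hpq.act k j' a hja
            rw [ha'] at ha''
            obtain ⟨rfl, h'⟩ := Sigma.mk.inj_iff.1 (Option.some.inj ha'')
            obtain rfl := eq_of_heq h'
            obtain ⟨b, hb, hab, hbn⟩ := hc2 k j a' ha'
            have h5 := h4 k ((Cond.mem_active p _).2 hk)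
            rw [p.fk_eq hja] at h5
            obtain ⟨d, hbd, hF⟩ := ((S j).f_spec b (facts k ((dec t').drop q.σ.length))).2 (by
              intro v hv
              rw [hbn] at hv
              have h6 := h5 v hv
              obtain ⟨hlt, -⟩ := List.getElem?_eq_some_iff.1 h6
              rw [hrl] at hlt
              rw [hr, range_map_getElem? _ _ _ hlt, Option.some.injEq] at h6
              exact (hβ' k j b hb v).1 h6)
            exact ⟨d, (S j).le_trans _ _ _ hab hbd, hF, trivial⟩)
      obtain ⟨y, hy⟩ := Option.isSome_iff_exists.1 h2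
      refine ⟨r', hr', n, hnm, y, ?_, by rw [hσ]; exact hy⟩
      beta_reduce
      rw [← hs']
      have h7 : ∀ (l : List ℕ) (x : ℕ),
          l.foldl (fun x t => x + (G (dec t) n).getD 0) x =
            x + (l.map fun t => (G (dec t) n).getD 0).sum := by
        intro l
        induction l with
        | nil => simp
        | cons a l ih => intro x; simp [ih, Nat.add_assoc]
      rw [h7, Nat.zero_add]
      have h8 : (G (dec t') n).getD 0 ∈ (List.range s).map fun t => (G (dec t) n).getD 0 :=
        List.mem_map.2 ⟨t', List.mem_range.2 ht', rfl⟩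
      rw [hy] at h8
      exact List.le_sum_of_mem h8

end Pool.Agent.Helper30.SatB
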