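import Mathlib
import Pool.Agent.Helper30.SatB.NonHigh

/-!
# The generic oracle
-/

set_option autoImplicit false

namespace Pool.Agent.Helper30.SatB

open Nat.Partrec (Code)

theorem countable_computable {α σ : Type} [Primcodable α] [Primcodable σ] :
    {f : α → σ | Computable f}.Countable := by
  have h : ∀ f : {f : α → σ // Computable f}, ∃ c : Code,
      Code.eval c = fun n => Part.bind (Encodable.decode (α := α) n) fun a =>
        (Part.some (f.1 a)).map Encodable.encode := fun f => Code.exists_code.1 f.2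
  choose c hc using h
  have hinj : Function.Injective c := by
    intro f g hfg
    have h1 := (hc f).symm.trans ((congrArg Code.eval hfg).trans (hc g))
    apply Subtype.ext
    funext a
    have h2 := congrFun h1 (Encodable.encode a)
    simp only [Encodable.encodek, Part.coe_some, Part.bind_some, Part.map_some, Part.some_inj] at h2
    exact Encodable.encode_injective h2
  have := hinj.countable
  exact Set.countable_coe_iff.1 this

theorem countable_functional : {G : List ℕ → ℕ → Option ℕ | IsFunctional G}.Countable := by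
  have h : Set.MapsTo (Function.uncurry : (List ℕ → ℕ → Option ℕ) → List ℕ × ℕ → Option ℕ)
      {G | IsFunctional G} {f | Computable f} := fun G hG => hG.comp
  exact h.countable_of_injOn (Function.uncurry_injective.injOn) countable_computable

variable {J : Type} {S : J → CodeSystem}

theorem exists_generic_seq (F : Set (Set (Cond S))) (hc : F.Countable)
    (hd : ∀ D ∈ F, ∀ p, ∃ q, Ext p q ∧ q ∈ D) (p0 : Cond S) :
    ∃ p : ℕ → Cond S, (∀ i j, i ≤ j → Ext (p i) (p j)) ∧ ∀ D ∈ F, ∃ i, p i ∈ D := by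
  rcases F.eq_empty_or_nonempty with rfl | hne
  · exact ⟨fun _ => p0, fun _ _ _ => Ext.refl _, fun D hD => absurd hD (by simp)⟩
  obtain ⟨e, he⟩ := hc.exists_eq_range hne
  have h1 : ∀ i p, ∃ q, Ext p q ∧ q ∈ e i := fun i p => hd (e i) (by rw [he]; exact ⟨i, rfl⟩) p
  choose nx hnx1 hnx2 using h1
  let p : ℕ → Cond S := fun n => Nat.rec p0 (fun i q => nx i q) n
  have hp : ∀ i, p (i + 1) = nx i (p i) := fun i => rfl
  refine ⟨p, fun i j hij => ?_, fun D hD => ?_⟩
  · induction j, hij using Nat.le_induction with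
    | base => exact Ext.refl _
    | succ j _ ih => exact ih.trans (by rw [hp]; exact hnx1 _ _)
  · rw [he] at hD
    obtain ⟨i, rfl⟩ := hD
    exact ⟨i + 1, by rw [hp]; exact hnx2 _ _⟩

/-- Column activation. -/
def setF1 (S : J → CodeSystem) (j : J) : Set (Cond S) := {p | ∃ k a, p.col k = some ⟨j, a⟩}

/-- Meeting the dense sets of the systems, at a late stage. -/
def setF2 (S : J → CodeSystem) (x : ℕ × ℕ × ℕ) : Set (Cond S) :=
  {p | x.2.2 ≤ p.σ.length ∧ ∀ j a, p.col x.1 = some ⟨j, a⟩ → a ∈ (S j).dense x.2.1}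

/-- Announcing facts at a late stage. -/
def setF3 (S : J → CodeSystem) (x : ℕ × ℕ × ℕ) : Set (Cond S) :=
  {p | x.2.2 ≤ p.σ.length ∧ ∀ j a, p.col x.1 = some ⟨j, a⟩ → x.2.1 ∈ (S j).D a →
    ∃ i, x.2.2 ≤ i ∧ p.σ[i]? = some (Nat.pair x.1 x.2.1)}

/-- Deciding totality. -/
def setF5 (S : J → CodeSystem) (G : List ℕ → ℕ → Option ℕ) : Set (Cond S) :=
  {p | Total p G ∨ ∃ n, ∀ q, Ext p q → G q.σ n = none}

/-- Deciding whether there is a late value below `h`. -/
def setF6 (S : J → CodeSystem) (x : (List ℕ → ℕ → Option ℕ) × (ℕ → ℕ) × ℕ) : Set (Cond S) :=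
  {q | (∃ n, x.2.2 ≤ n ∧ ∃ y, y ≤ x.2.1 n ∧ x.1 q.σ n = some y) ∨
    ∀ r, Ext q r → ∀ n, x.2.2 ≤ n → ∀ y, y ≤ x.2.1 n → x.1 r.σ n ≠ some y}

theorem F1_dense (j : J) (p : Cond S) : ∃ q, Ext p q ∧ q ∈ setF1 S j := by
  classical
  refine ⟨⟨p.σ, p.N + 1, Function.update p.col p.N (some ⟨j, (S j).start⟩), ?_⟩,
    ⟨List.prefix_rfl, Nat.le_succ _, ?_, ?_, by simp⟩, p.N, (S j).start, by simp⟩
  · intro k hk
    rw [Function.update_of_ne (by omega)]
    exact p.hcol k (by omega)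
  · intro k j' a hk
    have hne : k ≠ p.N := by
      rintro rfl
      rw [p.hcol _ le_rfl] at hk
      exact absurd hk (by simp)
    exact ⟨a, (Function.update_of_ne hne _ _).trans hk, (S j').le_refl a⟩
  · intro k hk hk'
    exact (Function.update_of_ne (by omega) _ _).trans hk'

theorem lengthen (p : Cond S) (t : ℕ) :
    ∃ q : Cond S, Ext p q ∧ t ≤ q.σ.length ∧ q.col = p.col := by
  refine ⟨⟨p.σ ++ List.replicate t (Nat.pair p.N 0), p.N, p.col, p.hcol⟩,
    ⟨List.prefix_append _ _, le_rfl, fun k j a h => ⟨a, h, (S j).le_refl a⟩, fun _ _ h => h, ?_⟩,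
    by simp, rfl⟩
  intro e he
  simp only [List.drop_left, List.mem_replicate] at he
  rw [he.2]
  simp

theorem F2_dense (x : ℕ × ℕ × ℕ) (p : Cond S) : ∃ q, Ext p q ∧ q ∈ setF2 S x := by
  obtain ⟨q, hpq, hq, -⟩ := lengthen p x.2.2
  have h1 : ∀ k j a, q.col k = some ⟨j, a⟩ →
      ∃ b, (S j).le a b ∧ (∀ v ∈ facts k (q.σ.drop q.σ.length), v ∈ (S j).D b) ∧
        b ∈ (S j).dense x.2.1 := by
    intro k j a _
    obtain ⟨b, hab, hb⟩ := (S j).dense_spec x.2.1 a
    exact ⟨b, hab, by simp [facts], hb⟩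
  obtain ⟨r, hqr, hσ, -, hnone, hcol⟩ := exists_ext q q.σ q.N le_rfl List.prefix_rfl (by simp)
    (Φ := fun _ j b => b ∈ (S j).dense x.2.1) h1
  refine ⟨r, hpq.trans hqr, by rw [hσ]; exact hq, fun j a ha => ?_⟩
  have hne : q.col x.1 ≠ none := fun h => by
    rw [hnone _ h] at ha
    exact absurd ha (by simp)
  obtain ⟨⟨j', a'⟩, hja⟩ := Option.ne_none_iff_exists'.1 hne
  obtain ⟨b, hb, -, hbd⟩ := hcol _ j' a' hja
  rw [ha] at hb
  obtain ⟨rfl, h'⟩ := Sigma.mk.inj_iff.1 (Option.some.inj hb)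
  obtain rfl := eq_of_heq h'
  exact hbd

theorem F3_dense (x : ℕ × ℕ × ℕ) (p : Cond S) : ∃ q, Ext p q ∧ q ∈ setF3 S x := by
  obtain ⟨q, hpq, hq, -⟩ := lengthen p x.2.2
  by_cases h : ∃ j a, q.col x.1 = some ⟨j, a⟩ ∧ x.2.1 ∈ (S j).D a
  · obtain ⟨j, a, hja, hv⟩ := h
    refine ⟨⟨q.σ ++ [Nat.pair x.1 x.2.1], q.N, q.col, q.hcol⟩, hpq.trans
      ⟨List.prefix_append _ _, le_rfl, fun k j a h => ⟨a, h, (S j).le_refl a⟩, fun _ _ h => h, ?_⟩,
      ?_, ?_⟩
    · intro e he
      simp only [List.drop_left, List.mem_singleton] at he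
      rw [he]
      right
      simp only [Nat.unpair_pair]
      exact ⟨j, a, by rw [hja]; simp, hja, hv⟩
    · simp only [List.length_append, List.length_singleton]
      omega
    · intro _ _ _ _
      exact ⟨q.σ.length, hq, by simp⟩
  · exact ⟨q, hpq, hq, fun j a hja hv => absurd ⟨j, a, hja, hv⟩ h⟩

theorem F5_dense (G : List ℕ → ℕ → Option ℕ) (p : Cond S) : ∃ q, Ext p q ∧ q ∈ setF5 S G := by
  by_cases h : Total p G
  · exact ⟨p, Ext.refl p, Or.inl h⟩
  · simp only [Total, not_forall] at h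
    obtain ⟨q, hq, n, hn⟩ := h
    refine ⟨q, hq, Or.inr ⟨n, fun r hr => ?_⟩⟩
    by_contra h
    exact hn ⟨r, hr, Option.isSome_iff_ne_none.2 h⟩

theorem F6_dense (x : (List ℕ → ℕ → Option ℕ) × (ℕ → ℕ) × ℕ) (p : Cond S) :
    ∃ q, Ext p q ∧ q ∈ setF6 S x := by
  by_cases h : ∀ r, Ext p r → ∀ n, x.2.2 ≤ n → ∀ y, y ≤ x.2.1 n → x.1 r.σ n ≠ some y
  · exact ⟨p, Ext.refl p, Or.inr h⟩
  · push Not at h
    obtain ⟨r, hr, n, hn, y, hy, h⟩ := h
    exact ⟨r, hr, Or.inl ⟨n, hn, y, hy, h⟩⟩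

/-- The main theorem on event-stream forcing. -/
theorem exists_generic_oracle [Countable J] (S : J → CodeSystem) :
    ∃ X : ℕ → ℕ,
      (∀ j, ∃ (k t : ℕ) (a : ℕ → (S j).C), (∀ i, (S j).le (a i) (a (i + 1))) ∧
        (∀ m, ∃ i, a i ∈ (S j).dense m) ∧
        ∀ v, (∃ i, v ∈ (S j).D (a i)) ↔ ∃ n, t ≤ n ∧ X n = Nat.pair k v) ∧
      (∀ f, RI X f → ¬ ∀ n, f n < 2 ∧ f n ∉ Code.eval (Denumerable.ofNat Code n) n) ∧
      ∀ f, RI X f → ∃ h : ℕ → ℕ, Computable h ∧ ∀ m, ∃ n, m ≤ n ∧ f n ≤ h n := by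
  set F : Set (Set (Cond S)) := Set.range (setF1 S) ∪ (Set.range (setF2 S) ∪
    (Set.range (setF3 S) ∪ (paSet S '' {G | IsFunctional G} ∪
    (setF5 S '' {G | IsFunctional G} ∪
      setF6 S '' ({G | IsFunctional G} ×ˢ ({h | Computable h} ×ˢ Set.univ)))))) with hF
  have hFc : F.Countable := by
    rw [hF]
    refine (Set.countable_range _).union ((Set.countable_range _).union
      ((Set.countable_range _).union ((countable_functional.image _).union
      ((countable_functional.image _).union (Set.Countable.image ?_ _)))))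
    exact countable_functional.prod (countable_computable.prod (Set.countable_univ))
  have hFd : ∀ D ∈ F, ∀ p, ∃ q, Ext p q ∧ q ∈ D := by
    intro D hD p
    rcases hD with ⟨j, rfl⟩ | ⟨x, rfl⟩ | ⟨x, rfl⟩ | ⟨G, hG, rfl⟩ | ⟨G, hG, rfl⟩ | ⟨x, hx, rfl⟩
    · exact F1_dense j p
    · exact F2_dense x p
    · exact F3_dense x p
    · exact paSet_dense hG.comp p
    · exact F5_dense G p
    · exact F6_dense x p
  obtain ⟨p, hp, hpF⟩ := exists_generic_seq F hFc hFd
    ⟨[], 0, fun _ => none, fun _ _ => rfl⟩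
  have m1 : ∀ j, ∃ i, p i ∈ setF1 S j := fun j => hpF _ (Or.inl ⟨j, rfl⟩)
  have m2 : ∀ x, ∃ i, p i ∈ setF2 S x := fun x => hpF _ (Or.inr (Or.inl ⟨x, rfl⟩))
  have m3 : ∀ x, ∃ i, p i ∈ setF3 S x := fun x => hpF _ (Or.inr (Or.inr (Or.inl ⟨x, rfl⟩)))
  have m4 : ∀ G, IsFunctional G → ∃ i, p i ∈ paSet S G := fun G hG =>
    hpF _ (Or.inr (Or.inr (Or.inr (Or.inl ⟨G, hG, rfl⟩))))
  have m5 : ∀ G, IsFunctional G → ∃ i, p i ∈ setF5 S G := fun G hG =>
    hpF _ (Or.inr (Or.inr (Or.inr (Or.inr (Or.inl ⟨G, hG, rfl⟩)))))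
  have m6 : ∀ G, IsFunctional G → ∀ h : ℕ → ℕ, Computable h → ∀ m,
      ∃ i, p i ∈ setF6 S (G, h, m) := fun G hG h hh m =>
    hpF _ (Or.inr (Or.inr (Or.inr (Or.inr (Or.inr ⟨(G, h, m), ⟨hG, hh, trivial⟩, rfl⟩)))))
  have hlen : ∀ t, ∃ i, t ≤ (p i).σ.length := fun t => by
    obtain ⟨i, hi⟩ := m2 (0, 0, t)
    exact ⟨i, hi.1⟩
  have hlate : ∀ i i', (p i).σ.length < (p i').σ.length → i ≤ i' := by
    intro i i' h
    by_contra h'
    have := (hp i' i (by omega)).pre.length_le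
    omega
  -- the limit
  have hX : ∃ X : ℕ → ℕ, ∀ i n, n < (p i).σ.length → (p i).σ[n]? = some (X n) := by
    choose e he using fun n => hlen (n + 1)
    have h1 : ∀ n, ∃ x, (p (e n)).σ[n]? = some x := fun n =>
      ⟨_, List.getElem?_eq_getElem (he n)⟩
    choose X hX using h1
    refine ⟨X, fun i n hn => ?_⟩
    rcases le_total i (e n) with h | h
    · obtain ⟨ρ, hρ⟩ := (hp _ _ h).pre
      rw [← hX n, ← hρ, List.getElem?_append_left hn]
    · obtain ⟨ρ, hρ⟩ := (hp _ _ h).pre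
      rw [← hX n, ← hρ, List.getElem?_append_left (he n)]
  obtain ⟨X, hX⟩ := hX
  have hseg : ∀ i, initList X (p i).σ.length = (p i).σ := by
    intro i
    apply List.ext_getElem?
    intro n
    by_cases hn : n < (p i).σ.length
    · rw [hX i n hn, initList_getElem? X _ _ hn]
    · rw [List.getElem?_eq_none (by rw [initList_length]; omega),
        List.getElem?_eq_none (by omega)]
  have hval : ∀ (G : List ℕ → ℕ → Option ℕ), IsFunctional G → ∀ k n y,
      G (initList X k) n = some y → ∀ i, ∃ i', i ≤ i' ∧ G (p i').σ n = some y := by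
    intro G hG k n y hy i
    obtain ⟨i', hi'⟩ := hlen (max k ((p i).σ.length + 1))
    refine ⟨i', hlate _ _ (by omega), ?_⟩
    refine hG.mono _ _ _ _ ?_ hy
    rw [← hseg i']
    exact initList_mono X (by omega)
  refine ⟨X, fun j => ?_, fun f hf hcon => ?_, fun f hf => ?_⟩
  · obtain ⟨i0, k, a0, h0⟩ := m1 j
    have h1 : ∀ i, ∃ a, (p (i0 + i)).col k = some ⟨j, a⟩ := by
      intro i
      obtain ⟨b, hb, -⟩ := (hp i0 (i0 + i) (by omega)).act k j a0 h0
      exact ⟨b, hb⟩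
    choose a ha using h1
    have hle : ∀ i i', i ≤ i' → (S j).le (a i) (a i') := by
      intro i i' hii
      obtain ⟨b, hb, hab⟩ := (hp (i0 + i) (i0 + i') (by omega)).act k j (a i) (ha i)
      rw [ha i'] at hb
      obtain ⟨-, h'⟩ := Sigma.mk.inj_iff.1 (Option.some.inj hb)
      obtain rfl := eq_of_heq h'
      exact hab
    have hk : k < (p i0).N := by
      by_contra h
      rw [(p i0).hcol k (not_lt.1 h)] at h0
      exact absurd h0 (by simp)
    refine ⟨k, (p i0).σ.length, a, fun i => hle _ _ (Nat.le_succ i), fun m => ?_, fun v => ⟨?_, ?_⟩⟩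
    · obtain ⟨i', hi', hd⟩ := m2 (k, m, (p i0).σ.length + 1)
      obtain ⟨i, rfl⟩ := Nat.exists_eq_add_of_le (hlate i0 i' (by simpa using hi'))
      exact ⟨i, hd j (a i) (ha i)⟩
    · rintro ⟨i, hv⟩
      obtain ⟨i', hi', hd⟩ := m3 (k, v, (p (i0 + i)).σ.length + 1)
      have hii := hlate (i0 + i) i' (by simpa using hi')
      obtain ⟨i'', rfl⟩ := Nat.exists_eq_add_of_le (show i0 ≤ i' by omega)
      obtain ⟨n, hn, hn'⟩ := hd j (a i'') (ha i'') ((S j).D_mono _ _ (hle i i'' (by omega)) hv)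
      have hlen' := (hp i0 (i0 + i) (by omega)).pre.length_le
      obtain ⟨hlt, -⟩ := List.getElem?_eq_some_iff.1 hn'
      rw [hX _ _ hlt, Option.some.injEq] at hn'
      exact ⟨n, by simp at hn; omega, hn'⟩
    · rintro ⟨n, hn, hXn⟩
      obtain ⟨i', hi'⟩ := hlen (n + 1)
      have hii : i0 ≤ i' := hlate i0 i' (by omega)
      obtain ⟨i, rfl⟩ := Nat.exists_eq_add_of_le hii
      have hmem : Nat.pair k v ∈ (p (i0 + i)).σ.drop (p i0).σ.length := by
        rw [List.mem_iff_getElem?]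
        refine ⟨n - (p i0).σ.length, ?_⟩
        rw [List.getElem?_drop, ← hXn, ← hX (i0 + i) n (by omega)]
        congr 1
        omega
      refine ⟨i, ?_⟩
      rcases (hp i0 (i0 + i) hii).ev _ hmem with h | ⟨j', b, -, hb, hD⟩
      · simp only [Nat.unpair_pair] at h
        omega
      · simp only [Nat.unpair_pair] at hb hD
        rw [ha i] at hb
        obtain ⟨rfl, h'⟩ := Sigma.mk.inj_iff.1 (Option.some.inj hb)
        obtain rfl := eq_of_heq h'
        exact hD
  · obtain ⟨G, hG, hGf⟩ := use_principle X hf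
    obtain ⟨i, hi⟩ := m4 G hG
    rcases hi with ⟨n, y, hy, hbad⟩ | ⟨n, hn⟩
    · have h1 : y ∈ (Part.some (f n) : Part ℕ) := by
        have := (hGf n y).2 ⟨(p i).σ.length, by rw [hseg]; exact hy⟩
        exact this
      rw [Part.mem_some_iff] at h1
      subst h1
      rcases hbad with h | h
      · exact absurd (hcon n).1 (by omega)
      · exact (hcon n).2 h
    · obtain ⟨k, hk⟩ := (hGf n (f n)).1 (Part.mem_some _)
      obtain ⟨i', hii', hi'⟩ := hval G hG k n _ hk i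
      rw [hn _ (hp i i' hii')] at hi'
      exact absurd hi' (by simp)
  · obtain ⟨G, hG, hGf⟩ := use_principle X hf
    obtain ⟨i, hi⟩ := m5 G hG
    rcases hi with hT | ⟨n, hn⟩
    · obtain ⟨h, hh, hbd⟩ := exists_bound (p i) hG.comp hT
      refine ⟨h, hh, fun m => ?_⟩
      obtain ⟨i', hi'⟩ := m6 G hG h hh m
      rcases hi' with ⟨n, hn, y, hy, hval'⟩ | hno
      · have h1 : y ∈ (Part.some (f n) : Part ℕ) := by
          have := (hGf n y).2 ⟨(p i').σ.length, by rw [hseg]; exact hval'⟩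
          exact this
        rw [Part.mem_some_iff] at h1
        exact ⟨n, hn, by rw [← h1]; exact hy⟩
      · exfalso
        obtain ⟨r, hr, n, hn, y, hy, hval'⟩ := hbd (p (max i i')) (hp _ _ (le_max_left _ _)) m
        exact hno r ((hp i' _ (le_max_right _ _)).trans hr) n hn y hy hval'
    · exfalso
      obtain ⟨k, hk⟩ := (hGf n (f n)).1 (Part.mem_some _)
      obtain ⟨i', hii', hi'⟩ := hval G hG k n _ hk i
      rw [hn _ (hp i i' hii')] at hi'
      exact absurd hi' (by simp)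

end Pool.Agent.Helper30.SatB
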